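import Mathlib
import Pool.Agent.H232R3.CMOCore

set_option autoImplicit false

open ArithmeticFunction Finset Filter Topology
open scoped ComplexOrder ComplexConjugate

namespace Pool.Agent.T6.H78.CK

open Pool.H232R3

/-- the arithmetic function with Dirichlet series `exp (∑ u(p) p^(-s))` -/
noncomputable def er (u : ℕ → ℝ) : ArithmeticFunction ℂ :=
  ⟨fun n => if n = 0 then 0 else n.factorization.prod fun p j => ((u p : ℂ)) ^ j / (j.factorial : ℂ),
    by simp⟩

lemma er_apply (u : ℕ → ℝ) (n : ℕ) (hn : n ≠ 0) :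
    er u n = n.factorization.prod fun p j => ((u p : ℂ)) ^ j / (j.factorial : ℂ) := if_neg hn

lemma er_one (u : ℕ → ℝ) : er u 1 = 1 := by
  rw [er_apply u 1 one_ne_zero]; simp

lemma er_mul (u : ℕ → ℝ) {m n : ℕ} (h : Nat.Coprime m n) : er u (m * n) = er u m * er u n := by
  rcases Nat.eq_zero_or_pos m with h0 | hm
  · rw [h0, zero_mul]; simp
  rcases Nat.eq_zero_or_pos n with h0 | hn
  · rw [h0, mul_zero]; simp
  rw [er_apply u _ (Nat.mul_pos hm hn).ne', er_apply u _ hm.ne', er_apply u _ hn.ne',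
    Nat.factorization_mul_of_coprime h]
  refine Finsupp.prod_add_index_of_disjoint ?_ _
  exact Nat.Coprime.disjoint_primeFactors h

lemma er_prime_pow (u : ℕ → ℝ) (p : ℕ) (hp : p.Prime) (j : ℕ) :
    er u (p ^ j) = ((u p : ℂ)) ^ j / (j.factorial : ℂ) := by
  rw [er_apply u _ (pow_ne_zero _ hp.ne_zero), hp.factorization_pow]
  exact Finsupp.prod_single_index (a := p) (b := j)
    (h := fun p j => ((u p : ℂ)) ^ j / (j.factorial : ℂ)) (by simp)

lemma er_nonneg (u : ℕ → ℝ) (hu : ∀ p, 0 ≤ u p) (n : ℕ) : 0 ≤ er u n := by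
  rcases Nat.eq_zero_or_pos n with h0 | hn
  · rw [h0]; simp
  rw [er_apply u n hn.ne']
  unfold Finsupp.prod
  have : ∏ p ∈ n.factorization.support, ((u p : ℂ)) ^ (n.factorization p) /
      ((n.factorization p).factorial : ℂ) = ((∏ p ∈ n.factorization.support,
        (u p) ^ (n.factorization p) / ((n.factorization p).factorial : ℝ) : ℝ) : ℂ) := by
    push_cast; rfl
  rw [this, Complex.zero_le_real]
  exact Finset.prod_nonneg fun p _ => div_nonneg (pow_nonneg (hu p) _) (Nat.cast_nonneg _)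

lemma natpow_cpow (p : ℕ) (s : ℂ) (j : ℕ) : ((p ^ j : ℕ) : ℂ) ^ (-s) = ((p : ℂ) ^ (-s)) ^ j := by
  induction j with
  | zero => simp
  | succ j ih =>
    rw [pow_succ, Nat.cast_mul, Complex.natCast_mul_natCast_cpow, ih, pow_succ]

/-- the summand -/
lemma er_summand (u : ℕ → ℝ) (s : ℂ) (p : ℕ) (hp : p.Prime) (j : ℕ) :
    er u (p ^ j) * ((p ^ j : ℕ) : ℂ) ^ (-s) = ((u p : ℂ) * (p : ℂ) ^ (-s)) ^ j / (j.factorial : ℂ) := by
  rw [er_prime_pow u p hp, mul_pow, natpow_cpow]
  ring

lemma hasSum_exp_local (z : ℂ) : HasSum (fun j : ℕ => z ^ j / (j.factorial : ℂ)) (Complex.exp z) := by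
  have h := NormedSpace.expSeries_div_hasSum_exp (𝔸 := ℂ) z
  rwa [← Complex.exp_eq_exp_ℂ] at h

lemma er_trunc_hasSum (u : ℕ → ℝ) (s : ℂ) (y : ℕ) :
    LSeriesHasSum (fun n => trunc (er u) y n) s
      (Complex.exp (∑ p ∈ y.primesBelow, (u p : ℂ) * (p : ℂ) ^ (-s))) := by
  set f : ℕ → ℂ := fun n => er u n * (n : ℂ) ^ (-s) with hf
  have f1 : f 1 = 1 := by simp [hf, er_one]
  have fm : ∀ {m n : ℕ}, Nat.Coprime m n → f (m * n) = f m * f n := by
    intro m n h
    simp only [hf]
    rw [er_mul u h, Nat.cast_mul, Complex.natCast_mul_natCast_cpow]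
    ring
  have fs : ∀ {p : ℕ}, p.Prime → Summable (fun n : ℕ => ‖f (p ^ n)‖) := by
    intro p hp
    refine Summable.congr (NormedSpace.norm_expSeries_div_summable (𝔸 := ℂ) ((u p : ℂ) * (p : ℂ) ^ (-s))) ?_
    intro j
    simp only [hf]
    rw [er_summand u s p hp]
  have h := (EulerProduct.summable_and_hasSum_smoothNumbers_prod_primesBelow_tsum f1 fm fs y).2
  have e : ∏ p ∈ y.primesBelow, ∑' n : ℕ, f (p ^ n)
      = Complex.exp (∑ p ∈ y.primesBelow, (u p : ℂ) * (p : ℂ) ^ (-s)) := by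
    rw [Complex.exp_sum]
    refine Finset.prod_congr rfl fun p hp => ?_
    have hpp := Nat.prime_of_mem_primesBelow hp
    have : (fun n : ℕ => f (p ^ n)) = fun j : ℕ =>
        ((u p : ℂ) * (p : ℂ) ^ (-s)) ^ j / (j.factorial : ℂ) := by
      ext j; simp only [hf]; rw [er_summand u s p hpp]
    rw [this]
    exact (hasSum_exp_local _).tsum_eq
  rw [e] at h
  have h2 := (hasSum_subtype_iff_indicator (f := f) (s := Nat.smoothNumbers y)).mp h
  unfold LSeriesHasSum
  convert! h2 using 1
  ext n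
  rw [LSeries.term_def]
  by_cases h0 : n = 0
  · rw [if_pos h0, h0]
    have : (0 : ℕ) ∉ Nat.smoothNumbers y := fun h => Nat.ne_zero_of_mem_smoothNumbers h rfl
    rw [Set.indicator_of_notMem this]
  · rw [if_neg h0, trunc_apply]
    by_cases hn : n ∈ Nat.smoothNumbers y
    · rw [if_pos hn, Set.indicator_of_mem hn]
      simp only [hf]
      rw [Complex.cpow_neg]
      rfl
    · rw [if_neg hn, Set.indicator_of_notMem hn, zero_div]

/-- partial sums over the primes -/
lemma tendsto_primesBelow (F : ℕ → ℂ) (h : Summable fun p : Nat.Primes => F p) :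
    Tendsto (fun y : ℕ => ∑ p ∈ y.primesBelow, F p) atTop (𝓝 (∑' p : Nat.Primes, F p)) := by
  classical
  have h1 : HasSum ((fun p : ℕ => F p) ∘ ((↑) : Nat.Primes → ℕ)) (∑' p : Nat.Primes, F p) := h.hasSum
  have h2 := (hasSum_subtype_iff_indicator (f := F) (s := {p : ℕ | p.Prime})).mp h1
  have h3 := h2.tendsto_sum_nat
  refine h3.congr fun y => ?_
  rw [Nat.primesBelow, Finset.sum_filter]
  refine Finset.sum_congr rfl fun p _ => ?_
  simp [Set.indicator_apply]

lemma norm_term_le (u : ℕ → ℝ) (hu : ∀ p, 0 ≤ u p) (p : ℕ) (hp : p.Prime) (s : ℂ) :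
    ‖(u p : ℂ) * (p : ℂ) ^ (-s)‖ = u p * (p : ℝ) ^ (-s.re) := by
  rw [norm_mul, norm_cpow_real p hp, Complex.norm_real, Real.norm_eq_abs, abs_of_nonneg (hu p)]

lemma er_hasSum (u : ℕ → ℝ) (hu : ∀ p, 0 ≤ u p) (s : ℂ)
    (hs : Summable fun p : Nat.Primes => u p * (p : ℝ) ^ (-s.re)) :
    LSeriesHasSum (fun n => er u n) s
      (Complex.exp (∑' p : Nat.Primes, (u p : ℂ) * (p : ℂ) ^ (-s))) := by
  classical
  have hsum : Summable fun p : Nat.Primes => (u p : ℂ) * (p : ℂ) ^ (-s) := by
    refine Summable.of_norm ?_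
    refine hs.congr fun p => ?_
    rw [norm_term_le u hu p p.2]
  -- absolute convergence
  have hσ : ∀ y : ℕ, ∑ p ∈ y.primesBelow, u p * (p : ℝ) ^ (-s.re) ≤
      ∑' p : Nat.Primes, u p * (p : ℝ) ^ (-s.re) := by
    intro y
    have h1 : HasSum ((fun p : ℕ => u p * (p : ℝ) ^ (-s.re)) ∘ ((↑) : Nat.Primes → ℕ))
      (∑' p : Nat.Primes, u p * (p : ℝ) ^ (-s.re)) := hs.hasSum
    have h2 := (hasSum_subtype_iff_indicator (f := fun p : ℕ => u p * (p : ℝ) ^ (-s.re))
      (s := {p : ℕ | p.Prime})).mp h1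
    refine le_trans (le_of_eq ?_) (sum_le_hasSum (Finset.range y) (fun p _ =>
      Set.indicator_nonneg (fun q _ => mul_nonneg (hu q) (by positivity)) p) h2)
    rw [Nat.primesBelow, Finset.sum_filter]
    refine Finset.sum_congr rfl fun p _ => ?_
    simp [Set.indicator_apply]
  have hnorm : ∀ n : ℕ, ‖LSeries.term (fun n => er u n) s n‖ =
      ‖LSeries.term (fun n => er u n) (s.re : ℂ) n‖ := by
    intro n
    rw [LSeries.norm_term_eq, LSeries.norm_term_eq]
    simp
  have habs : Summable fun n : ℕ => ‖LSeries.term (fun n => er u n) s n‖ := by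
    refine summable_of_sum_range_le (c := Real.exp (∑' p : Nat.Primes, u p * (p : ℝ) ^ (-s.re)))
      (fun n => norm_nonneg _) fun N => ?_
    have h1 := er_trunc_hasSum u (s.re : ℂ) N
    have h2 : HasSum (fun n => ‖LSeries.term (fun n => trunc (er u) N n) (s.re : ℂ) n‖)
        (Real.exp (∑ p ∈ N.primesBelow, u p * (p : ℝ) ^ (-s.re))) := by
      have h3 : ∀ n, ((‖LSeries.term (fun n => trunc (er u) N n) (s.re : ℂ) n‖ : ℝ) : ℂ)
          = LSeries.term (fun n => trunc (er u) N n) (s.re : ℂ) n := by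
        intro n
        have h4 : 0 ≤ LSeries.term (fun n => trunc (er u) N n) (s.re : ℂ) n :=
          LSeries.term_nonneg (trunc_nonneg _ (er_nonneg u hu) N n) s.re
        have h5 := Complex.eq_re_of_ofReal_le h4
        rw [h5, Complex.norm_real, Real.norm_eq_abs, abs_of_nonneg (Complex.le_def.mp h4).1]
      have h6 : ((Real.exp (∑ p ∈ N.primesBelow, u p * (p : ℝ) ^ (-s.re)) : ℝ) : ℂ)
          = Complex.exp (∑ p ∈ N.primesBelow, (u p : ℂ) * (p : ℂ) ^ (-(s.re : ℂ))) := by
        push_cast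
        congr 1
        refine Finset.sum_congr rfl fun p hp => ?_
        rw [Complex.ofReal_cpow (Nat.cast_nonneg _)]
        push_cast
        rfl
      rw [← Complex.hasSum_ofReal, h6]
      simp_rw [h3]
      exact h1
    refine le_trans ?_ ((sum_le_hasSum (Finset.range N) (fun n _ => norm_nonneg _) h2).trans ?_)
    · refine Finset.sum_le_sum fun n hn => ?_
      rw [Finset.mem_range] at hn
      rw [hnorm]
      rcases Nat.eq_zero_or_pos n with h0 | hpos
      · rw [h0]; simp
      · rw [LSeries.norm_term_eq, LSeries.norm_term_eq, if_neg hpos.ne', if_neg hpos.ne',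
          trunc_apply, if_pos (Nat.mem_smoothNumbers_of_lt hpos hn)]
    · exact Real.exp_le_exp.mpr (hσ N)
  have hfull : LSeriesSummable (fun n => er u n) s := Summable.of_norm habs
  -- limit of truncated sums
  have hlim : Tendsto (fun y : ℕ => ∑' n, LSeries.term (fun n => trunc (er u) y n) s n) atTop
      (𝓝 (∑' n, LSeries.term (fun n => er u n) s n)) := by
    refine tendsto_tsum_of_dominated_convergence habs ?_ ?_
    · intro n
      refine tendsto_const_nhds.congr' ?_
      filter_upwards [eventually_gt_atTop n] with y hy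
      rcases Nat.eq_zero_or_pos n with h0 | hpos
      · rw [h0]; simp
      · rw [LSeries.term_def, LSeries.term_def, if_neg hpos.ne', if_neg hpos.ne',
          trunc_apply, if_pos (Nat.mem_smoothNumbers_of_lt hpos hy)]
    · refine Eventually.of_forall fun y n => ?_
      rw [LSeries.norm_term_eq, LSeries.norm_term_eq]
      split_ifs with h0
      · exact le_rfl
      · rw [trunc_apply]
        split_ifs
        · exact le_rfl
        · rw [norm_zero, zero_div]; positivity
  have hlim2 : Tendsto (fun y : ℕ => ∑' n, LSeries.term (fun n => trunc (er u) y n) s n) atTop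
      (𝓝 (Complex.exp (∑' p : Nat.Primes, (u p : ℂ) * (p : ℂ) ^ (-s)))) := by
    have h1 := (tendsto_primesBelow (fun p => (u p : ℂ) * (p : ℂ) ^ (-s)) hsum)
    have h2 := (Complex.continuous_exp.tendsto _).comp h1
    refine h2.congr fun y => ?_
    exact (er_trunc_hasSum u s y).tsum_eq.symm
  have heq := tendsto_nhds_unique hlim hlim2
  have h := hfull.hasSum
  unfold LSeriesHasSum
  rw [← heq]
  exact h

end Pool.Agent.T6.H78.CK
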