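import Mathlib
import Pool.Agent.H232R3.CMOCore

set_option autoImplicit false

open ArithmeticFunction Finset Filter Topology MeasureTheory
open scoped ComplexOrder ComplexConjugate

namespace Pool.Agent.T6.H78.CK

open Pool.H232R3

/-- `S_f(N) = O(N^(-θ'))` for all `θ' < θ` -/
def Dec (f : ℕ → ℂ) (θ : ℝ) : Prop := ∀ θ' : ℝ, 0 ≤ θ' → θ' < θ → ∃ C : ℝ, 0 < C ∧
  ∀ N : ℕ, 1 ≤ N → ‖SS f N‖ ≤ C * (N : ℝ) ^ (-θ')

lemma SSfloor_bound' (f : ℕ → ℂ) (C θ : ℝ) (hθ : 0 ≤ θ) (hC : 0 ≤ C)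
    (h : ∀ N : ℕ, 1 ≤ N → ‖SS f N‖ ≤ C * (N : ℝ) ^ (-θ)) (t : ℝ) (ht1 : 1 ≤ t) :
    ‖SS f ⌊t⌋₊‖ ≤ C * 2 ^ θ * t ^ (-θ) := by
  have ht0 : 0 < t := by linarith
  have hfl : t < ⌊t⌋₊ + 1 := Nat.lt_floor_add_one t
  have hN : 1 ≤ ⌊t⌋₊ := Nat.le_floor (by simpa using ht1)
  have hf1 : (1 : ℝ) ≤ ⌊t⌋₊ := by exact_mod_cast hN
  refine (h _ hN).trans ?_
  rw [mul_assoc]
  gcongr
  have h2 : (⌊t⌋₊ : ℝ) ^ (-θ) ≤ (t / 2) ^ (-θ) :=
    Real.rpow_le_rpow_of_nonpos (by positivity) (by linarith) (by linarith)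
  refine h2.trans (le_of_eq ?_)
  rw [Real.div_rpow ht0.le (by norm_num), Real.rpow_neg (by norm_num : (0:ℝ) ≤ 2), div_inv_eq_mul,
    mul_comm]

lemma dec_bound (f : ℕ → ℂ) (θ : ℝ) (hθ : 0 < θ) (h : Dec f θ) : ∃ C : ℝ, 0 < C ∧
    ∀ N : ℕ, ‖SS f N‖ ≤ C := by
  obtain ⟨C, hC0, hC⟩ := h 0 le_rfl hθ
  refine ⟨C, hC0, fun N => ?_⟩
  rcases Nat.eq_zero_or_pos N with h0 | hpos
  · rw [h0, SS_zero]; simpa using hC0.le
  · have := hC N hpos
    rwa [neg_zero, Real.rpow_zero, mul_one] at this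

lemma Phi_diff (f : ℕ → ℂ) (θ : ℝ) (hθ : 0 < θ) (h : Dec f θ) (s : ℂ) (hs : -θ < s.re) :
    DifferentiableAt ℂ (Phi f) s := by
  obtain ⟨C₀, hC₀0, hb⟩ := dec_bound f θ hθ h
  obtain ⟨θ', h1, h2⟩ : ∃ θ', max (-s.re) 0 < θ' ∧ θ' < θ :=
    exists_between (max_lt (by linarith) hθ)
  obtain ⟨C, hC0, hC⟩ := h θ' ((le_max_right _ _).trans h1.le) h2
  have h3 : -s.re < θ' := (le_max_left _ _).trans_lt h1
  have h4 : 0 ≤ θ' := (le_max_right _ _).trans h1.le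
  have key : DifferentiableAt ℂ (mellin (fun t : ℝ => SS f ⌊t⌋₊)) (-s) := by
    refine mellin_differentiableAt_of_isBigO_rpow (a := θ') (b := (-s).re - 1)
      (locInt_SSfloor f C₀ hb) ?_ ?_ ?_ ?_
    · refine Asymptotics.IsBigO.of_bound (C * 2 ^ θ') ?_
      filter_upwards [eventually_ge_atTop (1 : ℝ)] with t ht
      have h1 := SSfloor_bound' f C θ' h4 hC0.le hC t ht
      rw [Real.norm_eq_abs, abs_of_nonneg (by positivity)]
      exact h1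
    · rw [Complex.neg_re]; linarith
    · refine Asymptotics.IsBigO.of_bound 1 ?_
      have : ∀ᶠ t in 𝓝[>] (0 : ℝ), t < 1 :=
        (nhdsWithin_le_nhds) (Iio_mem_nhds one_pos)
      filter_upwards [this] with t ht
      rw [SSfloor_lt_one f t ht, norm_zero]
      positivity
    · linarith
  exact key.comp s (differentiable_neg s)

lemma Phi_LSeries' (f : ℕ → ℂ) (θ : ℝ) (hθ : 0 < θ) (h : Dec f θ) (s : ℂ)
    (hs : 0 < s.re) (hS : LSeriesSummable f s) : LSeries f s = s * Phi f s := by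
  obtain ⟨C, hC0, hb⟩ := dec_bound f θ hθ h
  rw [Phi_eq_integral]
  refine LSeries_eq_mul_integral f le_rfl hs hS ?_
  refine Asymptotics.IsBigO.of_bound C ?_
  refine Eventually.of_forall fun n => ?_
  simp only [Real.rpow_zero, norm_one, mul_one]
  exact hb n

lemma dec_summable (f : ℕ → ℂ) (θ : ℝ) (hθ : 0 < θ) (h : Dec f θ) (s : ℂ) (hs : 1 < s.re) :
    LSeriesSummable f s := by
  obtain ⟨C, hC0, hb⟩ := dec_bound f θ hθ h
  refine LSeriesSummable_of_bounded_of_one_lt_re (m := 2 * C) ?_ hs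
  intro n hn
  obtain ⟨m, rfl⟩ : ∃ m, n = m + 1 := ⟨n - 1, by omega⟩
  have h2 : f (m + 1) = SS f (m + 1) - SS f m := by rw [SS_succ]; ring
  rw [h2]
  refine (norm_sub_le _ _).trans ?_
  have := hb (m + 1)
  have := hb m
  linarith

lemma dec_hasSum (f : ℕ → ℂ) (θ : ℝ) (hθ : 0 < θ) (h : Dec f θ) (s : ℂ) (hs : 1 < s.re) :
    LSeriesHasSum f s (s * Phi f s) := by
  have h2 := dec_summable f θ hθ h s hs
  rw [← Phi_LSeries' f θ hθ h s (by linarith) h2]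
  exact h2.LSeriesHasSum

lemma dec_cj (g : ArithmeticFunction ℂ) (θ : ℝ) (h : Dec (fun n => g n) θ) :
    Dec (fun n => cj g n) θ := by
  intro θ' h0 h1
  obtain ⟨C, hC0, hC⟩ := h θ' h0 h1
  refine ⟨C, hC0, fun N hN => ?_⟩
  rw [SS_cj, RCLike.norm_conj]
  exact hC N hN

/-- bound at the primes -/
lemma dec_prime (g : ArithmeticFunction ℂ) (h1 : g 1 = 1)
    (hg : ∀ m n, g (m * n) = g m * g n) (θ : ℝ) (h : Dec (fun n => g n) θ) (θ' : ℝ)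
    (h0 : 0 ≤ θ') (hlt : θ' < θ) (p : ℕ) (hp : p.Prime) : ‖g p‖ ≤ (p : ℝ) ^ (-θ') := by
  obtain ⟨C, hC0, hC⟩ := h θ' h0 hlt
  have hp1 : (1 : ℝ) < p := by exact_mod_cast hp.one_lt
  have hp0 : (0 : ℝ) < p := by linarith
  set b : ℝ := ‖g p‖ * (p : ℝ) ^ θ' with hb
  have hb0 : 0 ≤ b := by positivity
  have key : ∀ j : ℕ, 1 ≤ j → b ^ j ≤ C * (1 + 2 ^ θ') := by
    intro j hj
    obtain ⟨N, hN⟩ : ∃ N, p ^ j = N + 1 := ⟨p ^ j - 1, by
      have := Nat.one_le_pow j p hp.pos; omega⟩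
    have hN1 : 1 ≤ N := by
      have : 2 ≤ p ^ j := le_trans hp.two_le (Nat.le_self_pow (by omega) p)
      omega
    have e1 : g (p ^ j) = SS (fun n => g n) (N + 1) - SS (fun n => g n) N := by
      rw [hN, SS_succ]; ring
    have e2 : ‖g p‖ ^ j ≤ C * ((N + 1 : ℕ) : ℝ) ^ (-θ') + C * (N : ℝ) ^ (-θ') := by
      rw [← norm_pow, ← cm_pow g h1 hg, e1]
      refine (norm_sub_le _ _).trans ?_
      exact add_le_add (hC _ (by omega)) (hC _ hN1)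
    have e3 : (N : ℝ) ^ (-θ') ≤ 2 ^ θ' * ((N + 1 : ℕ) : ℝ) ^ (-θ') := by
      have hN' : (1 : ℝ) ≤ N := by exact_mod_cast hN1
      have h5 : (N : ℝ) ^ (-θ') ≤ (((N + 1 : ℕ) : ℝ) / 2) ^ (-θ') :=
        Real.rpow_le_rpow_of_nonpos (by positivity) (by push_cast; linarith) (by linarith)
      refine h5.trans (le_of_eq ?_)
      rw [Real.div_rpow (by positivity) (by norm_num), Real.rpow_neg (by norm_num : (0:ℝ) ≤ 2),
        div_inv_eq_mul, mul_comm]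
    have e4 : (((N + 1 : ℕ) : ℝ)) ^ (-θ') * ((p : ℝ) ^ θ') ^ j = 1 := by
      rw [← hN, ← Real.rpow_natCast, ← Real.rpow_mul hp0.le]
      push_cast
      rw [← Real.rpow_natCast, ← Real.rpow_mul hp0.le, ← Real.rpow_add hp0]
      have : (j : ℝ) * -θ' + θ' * j = 0 := by ring
      rw [this, Real.rpow_zero]
    calc b ^ j = ‖g p‖ ^ j * ((p : ℝ) ^ θ') ^ j := by rw [hb, mul_pow]
      _ ≤ (C * ((N + 1 : ℕ) : ℝ) ^ (-θ') + C * (2 ^ θ' * ((N + 1 : ℕ) : ℝ) ^ (-θ')))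
          * ((p : ℝ) ^ θ') ^ j := by
          gcongr
          exact e2.trans (by gcongr)
      _ = C * (1 + 2 ^ θ') * ((((N + 1 : ℕ) : ℝ)) ^ (-θ') * ((p : ℝ) ^ θ') ^ j) := by ring
      _ = _ := by rw [e4, mul_one]
  have hb1 : b ≤ 1 := by
    by_contra hcon
    push Not at hcon
    have := tendsto_pow_atTop_atTop_of_one_lt hcon
    obtain ⟨j, hj1, hj2⟩ := ((this.eventually_gt_atTop (C * (1 + 2 ^ θ'))).and
      (eventually_ge_atTop 1)).exists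
    exact absurd (key j hj2) (not_le.mpr hj1)
  rw [Real.rpow_neg hp0.le, ← one_div, le_div_iff₀ (by positivity)]
  exact hb1

end Pool.Agent.T6.H78.CK
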