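import Mathlib
import Pool.Agent.T6.H78.CK.E2

set_option autoImplicit false

open ArithmeticFunction Finset Filter Topology MeasureTheory
open scoped ComplexOrder ComplexConjugate

namespace Pool.Agent.T6.H78.CK

open Pool.H232R3

lemma log_pow_le (i : ℕ) (δ : ℝ) (hδ : 0 < δ) : ∃ K : ℝ, 0 < K ∧ ∀ t : ℝ, 1 ≤ t →
    (Real.log t) ^ i ≤ K * t ^ δ := by
  refine ⟨i.factorial / δ ^ i, by positivity, fun t ht => ?_⟩
  have ht0 : 0 < t := by linarith
  have hl : 0 ≤ Real.log t := Real.log_nonneg ht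
  have h := Real.pow_div_factorial_le_exp (δ * Real.log t) (by positivity) i
  have e : Real.exp (δ * Real.log t) = t ^ δ := by
    rw [Real.rpow_def_of_pos ht0, mul_comm]
  rw [e, mul_pow] at h
  have h2 : 0 < (i.factorial : ℝ) := by positivity
  rw [div_le_iff₀ h2] at h
  rw [div_mul_eq_mul_div, le_div_iff₀ (by positivity)]
  linarith

lemma int_rpow (δ : ℝ) (hδ : 0 < δ) (K : ℝ) :
    IntegrableOn (fun t : ℝ => K * t ^ (-1 - δ : ℝ)) (Set.Ioi 1) :=
  (integrableOn_Ioi_rpow_of_lt (by linarith) one_pos).const_mul K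

lemma meas_S (g : ArithmeticFunction ℂ) :
    Measurable (fun t : ℝ => SS (fun n => g n) ⌊t⌋₊) := measurable_SSfloor _

/-- the integrals with powers of the logarithm vanish -/
lemma int_log_zero (g : ArithmeticFunction ℂ) (θ : ℝ) (hθ : 0 < θ) (h : Dec (fun n => g n) θ)
    (i : ℕ)
    (h0 : Tendsto (fun N : ℕ => ∑ n ∈ Icc 1 N, g n * ((Real.log n : ℝ) : ℂ) ^ (i + 1)) atTop (𝓝 0)) :
    ∫ t in Set.Ioi (1 : ℝ), SS (fun n => g n) ⌊t⌋₊ * (((Real.log t) ^ i / t : ℝ) : ℂ) = 0 := by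
  obtain ⟨C, hC0, hC⟩ := h (θ / 2) (by linarith) (by linarith)
  set f : ℝ → ℂ := fun t => (((Real.log t) ^ (i + 1) : ℝ) : ℂ) with hf
  have hd : ∀ t : ℝ, 1 ≤ t → HasDerivAt f (((i + 1 : ℕ) * (Real.log t) ^ i / t : ℝ) : ℂ) t := by
    intro t ht
    have ht0 : t ≠ 0 := by linarith
    have h1 := ((Real.hasDerivAt_log ht0).pow (i + 1)).ofReal_comp
    refine h1.congr_deriv ?_
    simp only [Nat.add_sub_cancel]
    push_cast
    ring
  have hdd : ∀ t : ℝ, 1 ≤ t → deriv f t = (((i + 1 : ℕ) * (Real.log t) ^ i / t : ℝ) : ℂ) :=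
    fun t ht => (hd t ht).deriv
  have hsum : ∀ n : ℕ, ∑ k ∈ Icc 0 n, g k = SS (fun n => g n) n := by
    intro n
    unfold SS
    rw [← Finset.insert_Icc_add_one_left_eq_Icc (Nat.zero_le n), Finset.sum_insert (by simp)]
    simp
  have hlim : Tendsto (fun n : ℕ => f n * ∑ k ∈ Icc 0 n, g k) atTop (𝓝 0) := by
    obtain ⟨K, hK0, hK⟩ := log_pow_le (i + 1) (θ / 4) (by linarith)
    have h2 : Tendsto (fun n : ℕ => K * C * (n : ℝ) ^ (-(θ / 4))) atTop (𝓝 (K * C * 0)) :=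
      ((tendsto_rpow_neg_atTop (by linarith)).comp tendsto_natCast_atTop_atTop).const_mul _
    rw [mul_zero] at h2
    refine squeeze_zero_norm' ?_ h2
    filter_upwards [eventually_ge_atTop 1] with n hn
    have hn1 : (1 : ℝ) ≤ n := by exact_mod_cast hn
    have hn0 : (0 : ℝ) < n := by linarith
    rw [hsum, norm_mul]
    simp only [hf]
    rw [Complex.norm_real, Real.norm_eq_abs, abs_of_nonneg (by
      have := Real.log_nonneg hn1; positivity)]
    calc Real.log n ^ (i + 1) * ‖SS (fun n => g n) n‖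
        ≤ (K * (n : ℝ) ^ (θ / 4)) * (C * (n : ℝ) ^ (-(θ / 2))) := by
          refine mul_le_mul (hK _ hn1) (hC n hn) (norm_nonneg _) (by positivity)
      _ = K * C * ((n : ℝ) ^ (θ / 4) * (n : ℝ) ^ (-(θ / 2))) := by ring
      _ = K * C * (n : ℝ) ^ (-(θ / 4)) := by
          rw [← Real.rpow_add hn0]; congr 2; ring
  have hdom : (fun t : ℝ => deriv f t * ∑ k ∈ Icc 0 ⌊t⌋₊, g k) =O[atTop]
      (fun t : ℝ => t ^ (-1 - θ / 4 : ℝ)) := by
    obtain ⟨K, hK0, hK⟩ := log_pow_le i (θ / 4) (by linarith)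
    refine Asymptotics.IsBigO.of_bound ((i + 1 : ℕ) * K * (C * 2 ^ (θ / 2))) ?_
    filter_upwards [eventually_ge_atTop (1 : ℝ)] with t ht
    have ht0 : 0 < t := by linarith
    have hl := Real.log_nonneg ht
    rw [hsum, hdd t ht, norm_mul, Complex.norm_real, Real.norm_eq_abs, Real.norm_eq_abs,
      abs_of_nonneg (by positivity), abs_of_nonneg (by positivity)]
    have h3 := SSfloor_bound' (fun n => g n) C (θ / 2) (by linarith) hC0.le hC t ht
    calc ((i + 1 : ℕ) * (Real.log t) ^ i / t : ℝ) * ‖SS (fun n => g n) ⌊t⌋₊‖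
        ≤ ((i + 1 : ℕ) * (K * t ^ (θ / 4)) / t : ℝ) * (C * 2 ^ (θ / 2) * t ^ (-(θ / 2))) := by
          gcongr
          exact hK t ht
      _ = (i + 1 : ℕ) * K * (C * 2 ^ (θ / 2)) * (t ^ (θ / 4) * t ^ (-(θ / 2)) * t ^ (-1 : ℝ)) := by
          rw [Real.rpow_neg_one]; ring
      _ = _ := by
          rw [← Real.rpow_add ht0, ← Real.rpow_add ht0]
          congr 2
          ring
  have hint : IntegrableAtFilter (fun t : ℝ => t ^ (-1 - θ / 4 : ℝ)) atTop := by
    refine ⟨Set.Ioi 1, Ioi_mem_atTop 1, integrableOn_Ioi_rpow_of_lt (by linarith) one_pos⟩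
  have hloc : LocallyIntegrableOn (deriv f) (Set.Ici 1) := by
    refine ContinuousOn.locallyIntegrableOn ?_ measurableSet_Ici
    have : ContinuousOn (fun t : ℝ => (((i + 1 : ℕ) * (Real.log t) ^ i / t : ℝ) : ℂ)) (Set.Ici 1) := by
      refine Complex.continuous_ofReal.comp_continuousOn ?_
      have hne : ∀ t ∈ Set.Ici (1 : ℝ), t ≠ 0 := fun t ht => by
        have : (1 : ℝ) ≤ t := ht
        linarith
      refine ContinuousOn.div (ContinuousOn.mul continuousOn_const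
        ((continuousOn_id.log hne).pow i)) continuousOn_id hne
    exact this.congr fun t ht => hdd t ht
  have hmain := tendsto_sum_mul_atTop_nhds_one_sub_integral₀ (c := fun n => g n) (f := f)
    (by simp) (fun t ht => (hd t ht).differentiableAt) hloc hlim hdom hint
  have hleft : Tendsto (fun n : ℕ => ∑ k ∈ Icc 0 n, f k * g k) atTop (𝓝 0) := by
    refine h0.congr fun n => ?_
    rw [← Finset.insert_Icc_add_one_left_eq_Icc (Nat.zero_le n), Finset.sum_insert (by simp)]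
    simp only [hf, ArithmeticFunction.map_zero, mul_zero, zero_add]
    refine Finset.sum_congr rfl fun k _ => ?_
    push_cast
    ring
  have heq := tendsto_nhds_unique hleft hmain
  rw [zero_sub, zero_eq_neg] at heq
  have h5 : ∫ t in Set.Ioi (1 : ℝ), deriv f t * ∑ k ∈ Icc 0 ⌊t⌋₊, g k
      = ((i + 1 : ℕ) : ℂ) * ∫ t in Set.Ioi (1 : ℝ),
        SS (fun n => g n) ⌊t⌋₊ * (((Real.log t) ^ i / t : ℝ) : ℂ) := by
    rw [← integral_const_mul]
    refine setIntegral_congr_fun measurableSet_Ioi fun t ht => ?_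
    have ht1 : (1 : ℝ) ≤ t := le_of_lt ht
    simp only [hdd t ht1, hsum]
    push_cast
    ring
  rw [h5] at heq
  rcases mul_eq_zero.mp heq with h6 | h6
  · exfalso
    have : ((i + 1 : ℕ) : ℂ) ≠ 0 := by exact_mod_cast Nat.succ_ne_zero i
    exact this h6
  · exact h6

/-- `Φ(s) = O(s^m)` -/
lemma Phi_small_zero (g : ArithmeticFunction ℂ) (θ : ℝ) (hθ : 0 < θ) (h : Dec (fun n => g n) θ)
    (m : ℕ)
    (h0 : ∀ j : ℕ, j < m → Tendsto (fun N : ℕ => ∑ n ∈ Icc 1 N, g n * ((Real.log n : ℝ) : ℂ) ^ (j + 1))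
      atTop (𝓝 0)) :
    ∃ K r : ℝ, 0 < r ∧ ∀ s : ℂ, ‖s‖ ≤ r → ‖Phi (fun n => g n) s‖ ≤ K * ‖s‖ ^ m := by
  obtain ⟨C, hC0, hC⟩ := h (θ / 2) (by linarith) (by linarith)
  obtain ⟨K, hK0, hK⟩ := log_pow_le m (θ / 8) (by linarith)
  set S : ℝ → ℂ := fun t => SS (fun n => g n) ⌊t⌋₊ with hS
  have hSm : Measurable S := measurable_SSfloor _
  have hSb : ∀ t : ℝ, 1 ≤ t → ‖S t‖ ≤ C * 2 ^ (θ / 2) * t ^ (-(θ / 2)) := fun t ht =>
    SSfloor_bound' (fun n => g n) C (θ / 2) (by linarith) hC0.le hC t ht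
  set D : ℝ := C * 2 ^ (θ / 2) with hD
  have hD0 : 0 < D := by positivity
  refine ⟨∫ t in Set.Ioi (1 : ℝ), (D * K) * t ^ (-1 - θ / 4 : ℝ), θ / 8, by linarith, fun s hs => ?_⟩
  rw [Phi_eq_integral]
  -- integrability of the pieces
  have hmeas : ∀ j : ℕ, Measurable fun t : ℝ => (((Real.log t) ^ j / t : ℝ) : ℂ) := by
    intro j
    exact Complex.measurable_ofReal.comp ((Real.measurable_log.pow_const j).div measurable_id)
  have hIj : ∀ j : ℕ, IntegrableOn (fun t : ℝ => S t * (((Real.log t) ^ j / t : ℝ) : ℂ)) (Set.Ioi 1) := by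
    intro j
    obtain ⟨K', hK'0, hK'⟩ := log_pow_le j (θ / 4) (by linarith)
    refine Integrable.mono' (int_rpow (θ / 4) (by linarith) (D * K'))
      (hSm.mul (hmeas j)).aestronglyMeasurable ?_
    rw [ae_restrict_iff' measurableSet_Ioi]
    refine Eventually.of_forall fun t ht => ?_
    have ht1 : (1 : ℝ) ≤ t := le_of_lt ht
    have ht0 : 0 < t := by linarith
    have hl := Real.log_nonneg ht1
    rw [norm_mul, Complex.norm_real, Real.norm_eq_abs, abs_of_nonneg (by positivity)]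
    calc ‖S t‖ * ((Real.log t) ^ j / t)
        ≤ (D * t ^ (-(θ / 2))) * ((K' * t ^ (θ / 4)) / t) := by
          gcongr
          · exact hSb t ht1
          · exact hK' t ht1
      _ = D * K' * (t ^ (-(θ / 2)) * t ^ (θ / 4) * t ^ (-1 : ℝ)) := by
          rw [Real.rpow_neg_one]; ring
      _ = _ := by
          rw [← Real.rpow_add ht0, ← Real.rpow_add ht0]
          congr 2
          ring
  have hz : ∀ j : ℕ, j < m → ∫ t in Set.Ioi (1 : ℝ), S t * (((Real.log t) ^ j / t : ℝ) : ℂ) = 0 :=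
    fun j hj => int_log_zero g θ hθ h j (h0 j hj)
  -- the polynomial part has integral zero
  set P : ℝ → ℂ := fun t => ∑ j ∈ range m, ((-s) ^ j / (j.factorial : ℂ)) *
    (S t * (((Real.log t) ^ j / t : ℝ) : ℂ)) with hP
  have hPint : IntegrableOn P (Set.Ioi 1) := by
    simp only [hP]
    exact integrable_finsetSum _ fun j _ => (hIj j).const_mul _
  have hPz : ∫ t in Set.Ioi (1 : ℝ), P t = 0 := by
    simp only [hP]
    rw [integral_finsetSum _ fun j _ => (hIj j).const_mul _]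
    refine Finset.sum_eq_zero fun j hj => ?_
    rw [integral_const_mul, hz j (Finset.mem_range.mp hj), mul_zero]
  have hcpow : ∀ t : ℝ, 1 < t → (t : ℂ) ^ (-(s + 1)) =
      Complex.exp (-s * ((Real.log t : ℝ) : ℂ)) * ((t⁻¹ : ℝ) : ℂ) := by
    intro t ht
    have ht0 : (t : ℂ) ≠ 0 := by exact_mod_cast (by linarith : t ≠ 0)
    rw [show -(s + 1) = -s + (-1) by ring, Complex.cpow_add _ _ ht0, Complex.cpow_neg_one,
      Complex.cpow_def_of_ne_zero ht0, Complex.ofReal_log (by linarith)]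
    push_cast
    rw [mul_comm (Complex.log t)]
  have hbound : ∀ t : ℝ, 1 < t → ‖S t * (t : ℂ) ^ (-(s + 1)) - P t‖ ≤
      ‖s‖ ^ m * ((D * K) * t ^ (-1 - θ / 4 : ℝ)) := by
    intro t ht
    have ht0 : 0 < t := by linarith
    have hl := Real.log_nonneg ht.le
    have e1 : S t * (t : ℂ) ^ (-(s + 1)) - P t = S t * ((t⁻¹ : ℝ) : ℂ) *
        (Complex.exp (-s * ((Real.log t : ℝ) : ℂ)) -
          ∑ j ∈ range m, (-s * ((Real.log t : ℝ) : ℂ)) ^ j / (j.factorial : ℂ)) := by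
      rw [hcpow t ht, mul_sub, Finset.mul_sum]
      congr 1
      · ring
      · simp only [hP]
        refine Finset.sum_congr rfl fun j _ => ?_
        push_cast
        rw [mul_pow]
        ring
    rw [e1, norm_mul, norm_mul]
    have e2 := Complex.norm_exp_sub_sum_le_norm_mul_exp (-s * ((Real.log t : ℝ) : ℂ)) m
    have e3 : ‖-s * ((Real.log t : ℝ) : ℂ)‖ = ‖s‖ * Real.log t := by
      rw [norm_mul, norm_neg, Complex.norm_real, Real.norm_eq_abs, abs_of_nonneg hl]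
    rw [e3] at e2
    have e4 : Real.exp (‖s‖ * Real.log t) ≤ t ^ (θ / 8) := by
      rw [Real.rpow_def_of_pos ht0, mul_comm (Real.log t)]
      exact Real.exp_le_exp.mpr (mul_le_mul_of_nonneg_right hs hl)
    have e5 : ‖((t⁻¹ : ℝ) : ℂ)‖ = t ^ (-1 : ℝ) := by
      rw [Complex.norm_real, Real.norm_eq_abs, abs_of_nonneg (by positivity), Real.rpow_neg_one]
    rw [e5]
    calc ‖S t‖ * t ^ (-1 : ℝ) * ‖Complex.exp (-s * ((Real.log t : ℝ) : ℂ)) -
          ∑ j ∈ range m, (-s * ((Real.log t : ℝ) : ℂ)) ^ j / (j.factorial : ℂ)‖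
        ≤ (D * t ^ (-(θ / 2))) * t ^ (-1 : ℝ) * ((‖s‖ * Real.log t) ^ m * t ^ (θ / 8)) := by
          gcongr
          · exact hSb t ht.le
          · exact e2.trans (by gcongr)
      _ = ‖s‖ ^ m * (D * (Real.log t) ^ m * (t ^ (-(θ / 2)) * t ^ (-1 : ℝ) * t ^ (θ / 8))) := by
          rw [mul_pow]; ring
      _ ≤ ‖s‖ ^ m * (D * (K * t ^ (θ / 8)) * (t ^ (-(θ / 2)) * t ^ (-1 : ℝ) * t ^ (θ / 8))) := by
          gcongr
          exact hK t ht.le
      _ = ‖s‖ ^ m * ((D * K) * (t ^ (θ / 8) * (t ^ (-(θ / 2)) * t ^ (-1 : ℝ) * t ^ (θ / 8)))) := by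
          ring
      _ = _ := by
          rw [← Real.rpow_add ht0, ← Real.rpow_add ht0, ← Real.rpow_add ht0]
          congr 3
          ring
  have hmeasP : AEStronglyMeasurable (fun t : ℝ => S t * (t : ℂ) ^ (-(s + 1)) - P t)
      (volume.restrict (Set.Ioi 1)) := by
    refine AEStronglyMeasurable.sub ?_ hPint.aestronglyMeasurable
    refine (hSm.aestronglyMeasurable).mul ?_
    refine (ContinuousOn.aestronglyMeasurable ?_ measurableSet_Ioi)
    intro t ht
    have ht1 : (1 : ℝ) < t := ht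
    refine ContinuousAt.continuousWithinAt ?_
    exact Complex.continuousAt_ofReal_cpow_const t _ (Or.inr (by linarith))
  have hdint : IntegrableOn (fun t : ℝ => S t * (t : ℂ) ^ (-(s + 1)) - P t) (Set.Ioi 1) := by
    refine Integrable.mono' ((int_rpow (θ / 4) (by linarith) (D * K)).const_mul (‖s‖ ^ m)) hmeasP ?_
    rw [ae_restrict_iff' measurableSet_Ioi]
    exact Eventually.of_forall fun t ht => hbound t ht
  have e6 : ∫ t in Set.Ioi (1 : ℝ), SS (fun n => g n) ⌊t⌋₊ * (t : ℂ) ^ (-(s + 1))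
      = ∫ t in Set.Ioi (1 : ℝ), (S t * (t : ℂ) ^ (-(s + 1)) - P t) := by
    have h7 : ∫ t in Set.Ioi (1 : ℝ), S t * (t : ℂ) ^ (-(s + 1))
        = ∫ t in Set.Ioi (1 : ℝ), ((S t * (t : ℂ) ^ (-(s + 1)) - P t) + P t) := by
      refine setIntegral_congr_fun measurableSet_Ioi fun t _ => ?_
      simp
    rw [integral_add hdint hPint, hPz, add_zero] at h7
    exact h7
  rw [e6]
  refine (norm_integral_le_of_norm_le ((int_rpow (θ / 4) (by linarith) (D * K)).const_mul
    (‖s‖ ^ m)) ?_).trans (le_of_eq ?_)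
  · rw [ae_restrict_iff' measurableSet_Ioi]
    exact Eventually.of_forall fun t ht => hbound t ht
  · rw [integral_const_mul, mul_comm]

/-- factoring out a zero -/
lemma factor_zero (U : Set ℂ) (hU : IsOpen U) (h0U : (0 : ℂ) ∈ U) (m : ℕ) :
    ∀ F : ℂ → ℂ, DifferentiableOn ℂ F U →
      (∃ K r : ℝ, 0 < r ∧ ∀ s : ℂ, s ≠ 0 → ‖s‖ ≤ r → ‖F s‖ ≤ K * ‖s‖ ^ m) →
      ∃ G : ℂ → ℂ, DifferentiableOn ℂ G U ∧ ∀ s, F s = s ^ m * G s := by
  induction m with
  | zero =>
    intro F hF _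
    exact ⟨F, hF, fun s => by simp⟩
  | succ m ih =>
    intro F hF hK
    obtain ⟨K, r, hr, hK⟩ := hK
    have hF0 : F 0 = 0 := by
      have hc : ContinuousAt F 0 := (hF.differentiableAt (hU.mem_nhds h0U)).continuousAt
      have h1 : Tendsto (fun s : ℂ => ‖F s‖) (𝓝[≠] 0) (𝓝 ‖F 0‖) :=
        (hc.norm.tendsto).mono_left nhdsWithin_le_nhds
      have h2 : Tendsto (fun s : ℂ => K * ‖s‖ ^ (m + 1)) (𝓝[≠] 0) (𝓝 0) := by
        have : Tendsto (fun s : ℂ => K * ‖s‖ ^ (m + 1)) (𝓝 0) (𝓝 (K * ‖(0 : ℂ)‖ ^ (m + 1))) := by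
          have : Continuous fun s : ℂ => K * ‖s‖ ^ (m + 1) := by fun_prop
          exact this.tendsto 0
        simp at this
        exact this.mono_left nhdsWithin_le_nhds
      have h3 : ‖F 0‖ ≤ 0 := by
        refine le_of_tendsto_of_tendsto h1 h2 ?_
        have : ∀ᶠ s : ℂ in 𝓝[≠] 0, ‖s‖ ≤ r := by
          refine nhdsWithin_le_nhds ?_
          filter_upwards [Metric.closedBall_mem_nhds (0 : ℂ) hr] with s hs
          simpa using hs
        filter_upwards [this, self_mem_nhdsWithin] with s hs hs0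
        exact hK s hs0 hs
      exact norm_le_zero_iff.mp h3
    obtain ⟨G, hG, hG2⟩ := ih (dslope F 0) ((Complex.differentiableOn_dslope (hU.mem_nhds h0U)).mpr hF)
      ⟨K, r, hr, fun s hs0 hs => by
        have h1 := hK s hs0 hs
        have h2 : F s = s * dslope F 0 s := by
          have := sub_smul_dslope F 0 s
          rw [sub_zero, hF0, sub_zero, smul_eq_mul] at this
          exact this.symm
        rw [h2, norm_mul, pow_succ] at h1
        have h3 : 0 < ‖s‖ := norm_pos_iff.mpr hs0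
        have h4 : ‖s‖ * ‖dslope F 0 s‖ ≤ ‖s‖ * (K * ‖s‖ ^ m) := by
          calc _ ≤ _ := h1
            _ = _ := by ring
        exact le_of_mul_le_mul_left h4 h3⟩
    refine ⟨G, hG, fun s => ?_⟩
    have := sub_smul_dslope F 0 s
    rw [sub_zero, hF0, sub_zero, smul_eq_mul, hG2 s] at this
    rw [← this]
    ring

theorem Phi_factor (g : ArithmeticFunction ℂ) (θ : ℝ) (hθ : 0 < θ) (h : Dec (fun n => g n) θ)
    (m : ℕ)
    (h0 : ∀ j : ℕ, j < m → Tendsto (fun N : ℕ => ∑ n ∈ Icc 1 N, g n * ((Real.log n : ℝ) : ℂ) ^ (j + 1))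
      atTop (𝓝 0)) :
    ∃ G : ℂ → ℂ, DifferentiableOn ℂ G {s | -θ < s.re} ∧ ∀ s, Phi (fun n => g n) s = s ^ m * G s := by
  refine factor_zero _ (Complex.continuous_re.isOpen_preimage _ isOpen_Ioi) (by
    show -θ < (0 : ℂ).re
    simpa using hθ) m _ (fun s hs => (Phi_diff _ θ hθ h s hs).differentiableWithinAt) ?_
  obtain ⟨K, r, hr, hK⟩ := Phi_small_zero g θ hθ h m h0
  exact ⟨K, r, hr, fun s _ hs => hK s hs⟩

end Pool.Agent.T6.H78.CK
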