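import Mathlib
import Pool.Agent.T6.H78.CK.E1
import Pool.Agent.T6.H78.CK.E3

set_option autoImplicit false

open ArithmeticFunction Finset Filter Topology MeasureTheory
open scoped ComplexOrder ComplexConjugate

namespace Pool.Agent.T6.H78.CK

open Pool.H232R3

/-- `z + log (1 - z)` -/
noncomputable def ww (z : ℂ) : ℂ := z + Complex.log (1 - z)

lemma ww_bound (z : ℂ) (q : ℝ) (hq : q < 1) (hz : ‖z‖ ≤ q) : ‖ww z‖ ≤ (1 - q)⁻¹ * ‖z‖ ^ 2 := by
  have hz1 : ‖-z‖ < 1 := by rw [norm_neg]; linarith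
  have h := Complex.norm_log_one_add_sub_self_le hz1
  rw [norm_neg] at h
  have e : Complex.log (1 + -z) - -z = ww z := by unfold ww; ring_nf
  rw [e] at h
  refine h.trans ?_
  have h1 : (1 - ‖z‖)⁻¹ ≤ (1 - q)⁻¹ := inv_anti₀ (by linarith) (by linarith)
  have h2 : 0 ≤ (1 - ‖z‖)⁻¹ := inv_nonneg.mpr (by linarith)
  calc ‖z‖ ^ 2 * (1 - ‖z‖)⁻¹ / 2 ≤ ‖z‖ ^ 2 * (1 - ‖z‖)⁻¹ := by
        have : 0 ≤ ‖z‖ ^ 2 * (1 - ‖z‖)⁻¹ := by positivity
        linarith
    _ ≤ ‖z‖ ^ 2 * (1 - q)⁻¹ := by gcongr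
    _ = _ := mul_comm _ _

/-- data of the class -/
structure Cls (g : ArithmeticFunction ℂ) (k : ℕ) (C θ : ℝ) : Prop where
  one : g 1 = 1
  mul : ∀ m n, g (m * n) = g m * g n
  k1 : 1 ≤ k
  th0 : 0 < θ
  th1 : θ ≤ 1 / 2
  dec : Dec (fun n => g n) θ
  ub : ∀ p : ℕ, p.Prime → ‖g p‖ ≤ C / p
  zero : ∀ j : ℕ, j < k - 1 → Tendsto (fun N : ℕ => ∑ n ∈ Icc 1 N,
    g n * ((Real.log n : ℝ) : ℂ) ^ (j + 1)) atTop (𝓝 0)
  one_sided : Summable fun p : Nat.Primes => Real.sqrt p * max (-((k : ℝ) / p) - (g p).re) 0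

/-- excess -/
noncomputable def ee (g : ArithmeticFunction ℂ) (k : ℕ) (p : ℕ) : ℝ :=
  max (-((k : ℝ) / p) - (g p).re) 0

/-- first order coefficients -/
noncomputable def uu (g : ArithmeticFunction ℂ) (k : ℕ) (p : ℕ) : ℝ :=
  2 * ((k : ℝ) / p) + 2 * (g p).re + 2 * ee g k p

lemma ee_nonneg (g : ArithmeticFunction ℂ) (k : ℕ) (p : ℕ) : 0 ≤ ee g k p := le_max_right _ _

lemma uu_nonneg (g : ArithmeticFunction ℂ) (k : ℕ) (p : ℕ) : 0 ≤ uu g k p := by
  unfold uu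
  have := le_max_left (-((k : ℝ) / p) - (g p).re) 0
  change _ ≤ ee g k p at this
  linarith

/-- second order term at `p` -/
noncomputable def vv (g : ArithmeticFunction ℂ) (k : ℕ) (p : ℕ) (s : ℂ) : ℂ :=
  2 * (ee g k p : ℂ) * (p : ℂ) ^ (-s) + 2 * k * ww ((p : ℂ)⁻¹ * (p : ℂ) ^ (-s))
    + ww (g p * (p : ℂ) ^ (-s)) + ww (conj (g p) * (p : ℂ) ^ (-s))

lemma vv_eq (g : ArithmeticFunction ℂ) (k : ℕ) (p : ℕ) (s : ℂ) :
    vv g k p s = (uu g k p : ℂ) * (p : ℂ) ^ (-s)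
      + 2 * k * Complex.log (1 - (p : ℂ)⁻¹ * (p : ℂ) ^ (-s))
      + Complex.log (1 - g p * (p : ℂ) ^ (-s)) + Complex.log (1 - conj (g p) * (p : ℂ) ^ (-s)) := by
  unfold vv uu ww
  have h : (((g p).re : ℝ) : ℂ) * 2 = g p + conj (g p) := by
    rw [Complex.add_conj]; push_cast; ring
  push_cast
  linear_combination (-(p : ℂ) ^ (-s)) * h

lemma uu_le (g : ArithmeticFunction ℂ) (k : ℕ) (C : ℝ) (p : ℕ) (hp : p.Prime)
    (hC : ‖g p‖ ≤ C / p) : uu g k p ≤ 2 * (k + C) / p := by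
  have hp0 : (0 : ℝ) < p := by exact_mod_cast hp.pos
  have h1 := (Complex.abs_re_le_norm (g p)).trans hC
  have h2 := abs_le.mp h1
  have hk : 0 ≤ (k : ℝ) / p := by positivity
  unfold uu ee
  rcases le_total (-((k : ℝ) / p) - (g p).re) 0 with h | h
  · rw [max_eq_right h]
    have : 2 * ((k : ℝ) + C) / p = 2 * (k / p) + 2 * (C / p) := by ring
    rw [this]
    linarith [h2.2]
  · rw [max_eq_left h]
    have : 2 * ((k : ℝ) + C) / p = 2 * (k / p) + 2 * (C / p) := by ring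
    rw [this]
    have : 0 ≤ C / p := (norm_nonneg _).trans hC
    linarith

/-- bounds of the arguments of the logarithms -/
lemma arg_bound {g : ArithmeticFunction ℂ} {k : ℕ} {C θ : ℝ} (h : Cls g k C θ) (σ : ℝ)
    (hσ : -θ < σ) : ∃ q : ℝ, 0 < q ∧ q < 1 ∧ ∀ p : ℕ, p.Prime → ∀ s : ℂ, σ ≤ s.re →
      ‖(p : ℂ)⁻¹ * (p : ℂ) ^ (-s)‖ ≤ q ∧ ‖g p * (p : ℂ) ^ (-s)‖ ≤ q := by
  obtain ⟨θ', h1, h2⟩ : ∃ θ', max (-σ) 0 < θ' ∧ θ' < θ := exists_between (max_lt (by linarith) h.th0)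
  have h3 : -σ < θ' := (le_max_left _ _).trans_lt h1
  have h4 : 0 ≤ θ' := (le_max_right _ _).trans h1.le
  have hth := h.th1
  refine ⟨(2 : ℝ) ^ (-(θ' + σ)), by positivity, Real.rpow_lt_one_of_one_lt_of_neg (by norm_num)
    (by linarith), fun p hp s hs => ?_⟩
  have hp1 : (1 : ℝ) < p := by exact_mod_cast hp.one_lt
  have hp0 : (0 : ℝ) < p := by linarith
  have hp2 : (2 : ℝ) ≤ p := by exact_mod_cast hp.two_le
  have key : (p : ℝ) ^ (-θ') * (p : ℝ) ^ (-s.re) ≤ (2 : ℝ) ^ (-(θ' + σ)) := by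
    rw [← Real.rpow_add hp0]
    calc (p : ℝ) ^ (-θ' + -s.re) ≤ (p : ℝ) ^ (-(θ' + σ)) :=
          Real.rpow_le_rpow_of_exponent_le hp1.le (by linarith)
      _ ≤ (2 : ℝ) ^ (-(θ' + σ)) := Real.rpow_le_rpow_of_nonpos (by norm_num) hp2 (by linarith)
  constructor
  · rw [norm_mul, norm_cpow_real p hp, norm_inv, Complex.norm_natCast, ← Real.rpow_neg_one]
    refine le_trans ?_ key
    gcongr
    · exact hp1.le
    · linarith
  · rw [norm_mul, norm_cpow_real p hp]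
    refine le_trans ?_ key
    gcongr
    exact dec_prime g h.one h.mul θ h.dec θ' h4 h2 p hp

lemma summable_prime_rpow (r : ℝ) (hr : r < -1) : Summable fun p : Nat.Primes => (p : ℝ) ^ r :=
  Nat.Primes.summable_rpow.mpr hr

/-- dominating series -/
lemma vv_dom {g : ArithmeticFunction ℂ} {k : ℕ} {C θ : ℝ} (h : Cls g k C θ) (σ : ℝ)
    (hσ : -θ < σ) : ∃ M : Nat.Primes → ℝ, Summable M ∧ ∀ (p : Nat.Primes) (s : ℂ), σ ≤ s.re →
      ‖vv g k p s‖ ≤ M p := by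
  obtain ⟨q, hq0, hq1, hq⟩ := arg_bound h σ hσ
  have hth := h.th1
  refine ⟨fun p => 2 * (Real.sqrt p * ee g k p) + (2 * k * (1 - q)⁻¹ + 2 * ((1 - q)⁻¹ * C ^ 2)) *
    (p : ℝ) ^ (-2 - 2 * σ), ?_, ?_⟩
  · exact (h.one_sided.mul_left 2).add ((summable_prime_rpow _ (by linarith)).mul_left _)
  · intro p s hs
    have hpp := p.2
    obtain ⟨q1, q2⟩ := hq p hpp s hs
    have q3 : ‖conj (g p) * (p : ℂ) ^ (-s)‖ = ‖g p * (p : ℂ) ^ (-s)‖ := by
      rw [norm_mul, norm_mul, RCLike.norm_conj]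
    have hp1 : (1 : ℝ) < p := by exact_mod_cast hpp.one_lt
    have hp0 : (0 : ℝ) < p := by linarith
    have hps : (p : ℝ) ^ (-s.re) ≤ (p : ℝ) ^ (-σ) :=
      Real.rpow_le_rpow_of_exponent_le hp1.le (by linarith)
    have hsq : ((p : ℝ) ^ (-1 - σ)) ^ 2 = (p : ℝ) ^ (-2 - 2 * σ) := by
      rw [← Real.rpow_natCast, ← Real.rpow_mul hp0.le]
      congr 1
      push_cast
      ring
    have b1 : ‖(p : ℂ)⁻¹ * (p : ℂ) ^ (-s)‖ ≤ (p : ℝ) ^ (-1 - σ) := by
      rw [norm_mul, norm_cpow_real p hpp, norm_inv, Complex.norm_natCast, ← Real.rpow_neg_one,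
        ← Real.rpow_add hp0]
      exact Real.rpow_le_rpow_of_exponent_le hp1.le (by linarith)
    have b2 : ‖g p * (p : ℂ) ^ (-s)‖ ≤ C * (p : ℝ) ^ (-1 - σ) := by
      rw [norm_mul, norm_cpow_real p hpp]
      have h5 := h.ub p hpp
      have hC : 0 ≤ C / p := (norm_nonneg _).trans h5
      calc ‖g p‖ * (p : ℝ) ^ (-s.re) ≤ C / p * (p : ℝ) ^ (-σ) := by gcongr
        _ = C * ((p : ℝ) ^ (-1 : ℝ) * (p : ℝ) ^ (-σ)) := by rw [Real.rpow_neg_one]; ring
        _ = _ := by rw [← Real.rpow_add hp0]; congr 2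
    have c1 : ‖2 * (ee g k p : ℂ) * (p : ℂ) ^ (-s)‖ ≤ 2 * (Real.sqrt p * ee g k p) := by
      rw [norm_mul, norm_mul, norm_cpow_real p hpp, Complex.norm_real, Real.norm_eq_abs,
        abs_of_nonneg (ee_nonneg _ _ _), Complex.norm_ofNat]
      have : (p : ℝ) ^ (-s.re) ≤ Real.sqrt p := by
        rw [Real.sqrt_eq_rpow]
        exact Real.rpow_le_rpow_of_exponent_le hp1.le (by linarith)
      have h6 := ee_nonneg g k p
      calc 2 * ee g k p * (p : ℝ) ^ (-s.re) ≤ 2 * ee g k p * Real.sqrt p := by gcongr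
        _ = _ := by ring
    have c2 : ‖2 * (k : ℂ) * ww ((p : ℂ)⁻¹ * (p : ℂ) ^ (-s))‖ ≤
        2 * k * ((1 - q)⁻¹ * (p : ℝ) ^ (-2 - 2 * σ)) := by
      rw [norm_mul, norm_mul, Complex.norm_natCast, Complex.norm_ofNat, ← hsq]
      gcongr
      refine (ww_bound _ q hq1 q1).trans ?_
      have : 0 ≤ (1 - q)⁻¹ := inv_nonneg.mpr (by linarith)
      gcongr
    have c3 : ‖ww (g p * (p : ℂ) ^ (-s))‖ ≤ (1 - q)⁻¹ * (C ^ 2 * (p : ℝ) ^ (-2 - 2 * σ)) := by
      refine (ww_bound _ q hq1 q2).trans ?_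
      have : 0 ≤ (1 - q)⁻¹ := inv_nonneg.mpr (by linarith)
      rw [← hsq, ← mul_pow]
      gcongr
    have c4 : ‖ww (conj (g p) * (p : ℂ) ^ (-s))‖ ≤ (1 - q)⁻¹ * (C ^ 2 * (p : ℝ) ^ (-2 - 2 * σ)) := by
      refine (ww_bound _ q hq1 (by rw [q3]; exact q2)).trans ?_
      have : 0 ≤ (1 - q)⁻¹ := inv_nonneg.mpr (by linarith)
      rw [← hsq, ← mul_pow, q3]
      gcongr
    unfold vv
    refine (norm_add_le _ _).trans (le_trans (add_le_add (norm_add_le _ _) le_rfl) ?_)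
    refine (add_le_add (add_le_add (norm_add_le _ _) le_rfl) le_rfl).trans ?_
    linarith

lemma vv_diff {g : ArithmeticFunction ℂ} {k : ℕ} {C θ : ℝ} (h : Cls g k C θ) (p : ℕ)
    (hp : p.Prime) (s : ℂ) (hs : -θ < s.re) : DifferentiableAt ℂ (vv g k p) s := by
  obtain ⟨q, hq0, hq1, hq⟩ := arg_bound h ((-θ + s.re) / 2) (by linarith)
  obtain ⟨q1, q2⟩ := hq p hp s (by linarith)
  have q3 : ‖conj (g p) * (p : ℂ) ^ (-s)‖ = ‖g p * (p : ℂ) ^ (-s)‖ := by
    rw [norm_mul, norm_mul, RCLike.norm_conj]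
  have hp0 : (p : ℂ) ≠ 0 := by exact_mod_cast hp.ne_zero
  have hpow : DifferentiableAt ℂ (fun s : ℂ => (p : ℂ) ^ (-s)) s :=
    DifferentiableAt.const_cpow differentiableAt_id.neg (Or.inl hp0)
  have hl : ∀ a : ℂ, ‖a * (p : ℂ) ^ (-s)‖ < 1 →
      DifferentiableAt ℂ (fun s : ℂ => ww (a * (p : ℂ) ^ (-s))) s := by
    intro a ha
    unfold ww
    refine (hpow.const_mul a).add ?_
    refine DifferentiableAt.clog ((differentiableAt_const _).sub (hpow.const_mul a)) ?_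
    rw [sub_eq_add_neg]
    exact Complex.mem_slitPlane_of_norm_lt_one (by rwa [norm_neg])
  unfold vv
  refine ((((hpow.const_mul _).add ((hl _ (by linarith)).const_mul _)).add (hl _ (by linarith))).add
    (hl _ (by rw [q3]; linarith)))

/-- the second order factor -/
noncomputable def VV (g : ArithmeticFunction ℂ) (k : ℕ) (s : ℂ) : ℂ :=
  Complex.exp (∑' p : Nat.Primes, vv g k p s)

lemma halfplane_open (σ : ℝ) : IsOpen {s : ℂ | σ < s.re} :=
  Complex.continuous_re.isOpen_preimage _ isOpen_Ioi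

lemma VV_diff {g : ArithmeticFunction ℂ} {k : ℕ} {C θ : ℝ} (h : Cls g k C θ) :
    DifferentiableOn ℂ (VV g k) {s | -θ < s.re} := by
  intro s hs
  have hs' : -θ < s.re := hs
  obtain ⟨M, hM, hM2⟩ := vv_dom h ((-θ + s.re) / 2) (by linarith)
  have hd := Complex.differentiableOn_tsum_of_summable_norm (F := fun (p : Nat.Primes) (s : ℂ) => vv g k p s)
    hM (U := {z : ℂ | (-θ + s.re) / 2 < z.re})
    (fun p z hz => (vv_diff h p p.2 z (by
      have : (-θ + s.re) / 2 < z.re := hz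
      linarith)).differentiableWithinAt) (halfplane_open _)
    (fun p z hz => hM2 p z (le_of_lt hz))
  have h1 := hd.differentiableAt ((halfplane_open _).mem_nhds (show s ∈ {z : ℂ |
    (-θ + s.re) / 2 < z.re} by show (-θ + s.re) / 2 < s.re; linarith))
  exact (h1.cexp).differentiableWithinAt

/-- the function `s ζ(s+1)` -/
noncomputable def ZZ (s : ℂ) : ℂ := DirichletCharacter.LFunctionTrivChar₁ 1 (s + 1)

lemma ZZ_diff : Differentiable ℂ ZZ :=
  (DirichletCharacter.differentiable_LFunctionTrivChar₁ 1).comp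
    (differentiable_id.add (differentiable_const 1))

lemma ZZ_eq (s : ℂ) (hs : s ≠ 0) : ZZ s = s * riemannZeta (s + 1) := by
  have hs1 : s + 1 ≠ 1 := by simpa using hs
  unfold ZZ
  rw [DirichletCharacter.LFunctionTrivChar₁, Function.update_of_ne hs1,
    DirichletCharacter.LFunctionTrivChar_eq_mul_riemannZeta hs1]
  simp

/-- the completely multiplicative summand as a monoid with zero homomorphism -/
noncomputable def tw0 (g : ArithmeticFunction ℂ) (h1 : g 1 = 1)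
    (hg : ∀ m n, g (m * n) = g m * g n) (s : ℂ) : ℕ →*₀ ℂ where
  toFun n := g n * (n : ℂ) ^ (-s)
  map_zero' := by simp
  map_one' := by simp [h1]
  map_mul' m n := by
    rw [hg, Nat.cast_mul, Complex.natCast_mul_natCast_cpow]
    ring

/-- Euler product of a completely multiplicative function with exponentials -/
lemma euler_exp (g : ArithmeticFunction ℂ) (h1 : g 1 = 1)
    (hg : ∀ m n, g (m * n) = g m * g n) (s : ℂ) (L : ℂ) (hL : LSeriesHasSum (fun n => g n) s L) :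
    Complex.exp (∑' p : Nat.Primes, -Complex.log (1 - g p * (p : ℂ) ^ (-s))) = L ∧
    Summable (fun p : Nat.Primes => Complex.log (1 - g p * (p : ℂ) ^ (-s))) := by
  have hterm : ∀ n : ℕ, LSeries.term (fun n => g n) s n = tw0 g h1 hg s n := by
    intro n
    rw [LSeries.term_def]
    split_ifs with h0
    · rw [h0, _root_.map_zero]
    · show g n / (n : ℂ) ^ s = g n * (n : ℂ) ^ (-s)
      rw [Complex.cpow_neg]; rfl
  have hs : Summable (fun n : ℕ => ‖tw0 g h1 hg s n‖) := by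
    refine hL.summable.norm.congr fun n => ?_
    rw [hterm]
  constructor
  · have h := EulerProduct.exp_tsum_primes_log_eq_tsum hs
    have h2 : ∑' n : ℕ, tw0 g h1 hg s n = L := by
      rw [← hL.tsum_eq]
      exact tsum_congr fun n => (hterm n).symm
    rw [h2] at h
    exact h
  · have h3 : Summable (fun n : ℕ => tw0 g h1 hg s n) := Summable.of_norm hs
    exact (h3.clog_one_sub).subtype {p : ℕ | p.Prime}

end Pool.Agent.T6.H78.CK
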