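import Mathlib
import Pool.Agent.T6.H78.CK.E4

set_option autoImplicit false

open ArithmeticFunction Finset Filter Topology MeasureTheory
open scoped ComplexOrder ComplexConjugate

namespace Pool.Agent.T6.H78.CK

open Pool.H232R3

lemma zero_cj (g : ArithmeticFunction ℂ) (j : ℕ)
    (h : Tendsto (fun N : ℕ => ∑ n ∈ Icc 1 N, g n * ((Real.log n : ℝ) : ℂ) ^ (j + 1)) atTop (𝓝 0)) :
    Tendsto (fun N : ℕ => ∑ n ∈ Icc 1 N, cj g n * ((Real.log n : ℝ) : ℂ) ^ (j + 1)) atTop (𝓝 0) := by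
  have h1 := (Complex.continuous_conj.tendsto 0).comp h
  rw [_root_.map_zero] at h1
  refine h1.congr fun N => ?_
  simp only [Function.comp]
  rw [map_sum]
  refine Finset.sum_congr rfl fun n _ => ?_
  rw [map_mul, map_pow, Complex.conj_ofReal, cj_apply]

lemma uu_summable_one {g : ArithmeticFunction ℂ} {k : ℕ} {C θ : ℝ} (h : Cls g k C θ) (x : ℝ)
    (hx : 0 < x) : Summable fun p : Nat.Primes => uu g k p * (p : ℝ) ^ (-x) := by
  refine Summable.of_nonneg_of_le (fun p => mul_nonneg (uu_nonneg g k p) (by positivity)) ?_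
    ((summable_prime_rpow (-1 - x) (by linarith)).mul_left (2 * (k + C)))
  intro p
  have hp0 : (0 : ℝ) < p := by exact_mod_cast p.2.pos
  have h1 := uu_le g k C p p.2 (h.ub p p.2)
  calc uu g k p * (p : ℝ) ^ (-x) ≤ 2 * (k + C) / p * (p : ℝ) ^ (-x) := by gcongr
    _ = 2 * (k + C) * ((p : ℝ) ^ (-1 : ℝ) * (p : ℝ) ^ (-x)) := by rw [Real.rpow_neg_one]; ring
    _ = _ := by rw [← Real.rpow_add hp0]; congr 2

/-- the identity on `Re s > 1` -/
lemma id_one {g : ArithmeticFunction ℂ} {k : ℕ} {C θ : ℝ} (h : Cls g k C θ) (s : ℂ)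
    (hs : 1 < s.re) :
    Complex.exp (∑' p : Nat.Primes, (uu g k p : ℂ) * (p : ℂ) ^ (-s)) =
      VV g k s * riemannZeta (s + 1) ^ (2 * k) *
        ((s * Phi (fun n => g n) s) * (s * Phi (fun n => cj g n) s)) := by
  have hth0 := h.th0
  have ha1 : aInv 1 = 1 := by rw [aInv_apply]; simp
  have hag : ∀ m n, aInv (m * n) = aInv m * aInv n := by
    intro m n; rw [aInv_apply, aInv_apply, aInv_apply]; push_cast; rw [mul_inv]
  have hc1 : cj g 1 = 1 := by rw [cj_apply, h.one, map_one]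
  have hcg : ∀ m n, cj g (m * n) = cj g m * cj g n := by
    intro m n; rw [cj_apply, h.mul, map_mul]; rfl
  obtain ⟨a1, a2⟩ := euler_exp aInv ha1 hag s _ (aInv_hasSum s (by linarith))
  obtain ⟨b1, b2⟩ := euler_exp g h.one h.mul s _ (dec_hasSum _ θ h.th0 h.dec s hs)
  obtain ⟨c1, c2⟩ := euler_exp (cj g) hc1 hcg s _ (dec_hasSum _ θ h.th0 (dec_cj g θ h.dec) s hs)
  obtain ⟨M, hM, hM2⟩ := vv_dom h 0 (by linarith)
  have hv : Summable fun p : Nat.Primes => vv g k p s :=
    Summable.of_norm_bounded hM fun p => hM2 p s (by linarith)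
  have hu : ∀ p : Nat.Primes, (uu g k p : ℂ) * (p : ℂ) ^ (-s) = vv g k p s
      + (2 * k) * (-Complex.log (1 - aInv p * (p : ℂ) ^ (-s)))
      + -Complex.log (1 - g p * (p : ℂ) ^ (-s)) + -Complex.log (1 - cj g p * (p : ℂ) ^ (-s)) := by
    intro p
    rw [vv_eq, aInv_apply, cj_apply]
    ring
  simp_rw [hu]
  rw [((hv.add (a2.neg.mul_left _)).add b2.neg).tsum_add c2.neg,
    (hv.add (a2.neg.mul_left _)).tsum_add b2.neg, hv.tsum_add (a2.neg.mul_left _), tsum_mul_left,
    Complex.exp_add, Complex.exp_add, Complex.exp_add, b1, c1]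
  have e : Complex.exp (2 * (k : ℂ) * ∑' p : Nat.Primes, -Complex.log (1 - aInv p * (p : ℂ) ^ (-s)))
      = riemannZeta (s + 1) ^ (2 * k) := by
    rw [← a1, ← Complex.exp_nat_mul]
    push_cast
    rfl
  rw [e]
  unfold VV
  ring

theorem main_id {g : ArithmeticFunction ℂ} {k : ℕ} {C θ : ℝ} (h : Cls g k C θ) :
    ∃ G Gc : ℂ → ℂ, DifferentiableOn ℂ G {s | -θ < s.re} ∧ DifferentiableOn ℂ Gc {s | -θ < s.re} ∧
      (∀ s, Phi (fun n => g n) s = s ^ (k - 1) * G s) ∧
      (∀ s, Phi (fun n => cj g n) s = s ^ (k - 1) * Gc s) ∧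
      (∀ x : ℝ, -θ < x → Summable fun p : Nat.Primes => uu g k p * (p : ℝ) ^ (-x)) ∧
      ∀ s : ℂ, -θ < s.re → Complex.exp (∑' p : Nat.Primes, (uu g k p : ℂ) * (p : ℂ) ^ (-s)) =
        VV g k s * ZZ s ^ (2 * k) * (G s * Gc s) := by
  have hth0 := h.th0
  have hth1 := h.th1
  have hk1 := h.k1
  obtain ⟨G, hG, hG2⟩ := Phi_factor g θ h.th0 h.dec (k - 1) h.zero
  obtain ⟨Gc, hGc, hGc2⟩ := Phi_factor (cj g) θ h.th0 (dec_cj g θ h.dec) (k - 1)
    (fun j hj => zero_cj g j (h.zero j hj))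
  set R : ℂ → ℂ := fun s => VV g k s * ZZ s ^ (2 * k) * (G s * Gc s) with hR
  have hRd : DifferentiableOn ℂ R {s | -θ < s.re} :=
    ((VV_diff h).mul (ZZ_diff.differentiableOn.pow _)).mul (hG.mul hGc)
  have hRone : ∀ s : ℂ, 1 < s.re →
      Complex.exp (∑' p : Nat.Primes, (uu g k p : ℂ) * (p : ℂ) ^ (-s)) = R s := by
    intro s hs
    have s0 : s ≠ 0 := by rintro rfl; simp at hs; linarith
    rw [id_one h s hs, hG2, hGc2]
    simp only [hR]
    rw [ZZ_eq s s0]
    obtain ⟨m, rfl⟩ : ∃ m, k = m + 1 := ⟨k - 1, by omega⟩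
    rw [Nat.add_sub_cancel]
    ring
  have hRsum : ∀ s : ℂ, 1 < s.re → LSeriesHasSum (fun n => er (uu g k) n) s (R s) := by
    intro s hs
    rw [← hRone s hs]
    exact er_hasSum _ (uu_nonneg g k) s (uu_summable_one h s.re (by linarith))
  -- comparison on the real axis
  have hpart : ∀ (x : ℝ), -θ < x → x ≤ 2 → ∀ y : ℕ,
      Real.exp (∑ p ∈ y.primesBelow, uu g k p * (p : ℝ) ^ (-x)) ≤ (R x).re := by
    intro x hx hx2 y
    set P : ℂ → ℂ := fun s => Complex.exp (∑ p ∈ y.primesBelow, (uu g k p : ℂ) * (p : ℂ) ^ (-s))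
      with hP
    have hPd : DifferentiableOn ℂ P {s | -θ < s.re} := by
      intro s _
      refine DifferentiableAt.differentiableWithinAt ?_
      refine DifferentiableAt.cexp ?_
      refine DifferentiableAt.fun_sum fun p hp => ?_
      have hpp := Nat.prime_of_mem_primesBelow hp
      have hp0 : (p : ℂ) ≠ 0 := by exact_mod_cast hpp.ne_zero
      exact (DifferentiableAt.const_cpow differentiableAt_id.neg (Or.inl hp0)).const_mul _
    have hle := compare (er (uu g k)) (er_nonneg _ (uu_nonneg g k)) y R P (-θ) (by linarith) hRd hPd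
      hRsum (fun s _ => er_trunc_hasSum _ s y) x hx hx2
    have e : P x = ((Real.exp (∑ p ∈ y.primesBelow, uu g k p * (p : ℝ) ^ (-x)) : ℝ) : ℂ) := by
      simp only [hP]
      push_cast
      congr 1
      refine Finset.sum_congr rfl fun p _ => ?_
      rw [Complex.ofReal_cpow (Nat.cast_nonneg _)]
      push_cast
      rfl
    rw [e] at hle
    exact (Complex.le_def.mp hle).1
  have hsumm2 : ∀ x : ℝ, -θ < x → x ≤ 2 →
      Summable fun p : Nat.Primes => uu g k p * (p : ℝ) ^ (-x) := by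
    intro x hx hx2
    have hpos : 0 < (R x).re := lt_of_lt_of_le (Real.exp_pos _) (hpart x hx hx2 0)
    refine summable_of_sum_le (c := Real.log (R x).re)
      (fun p => mul_nonneg (uu_nonneg g k p) (by positivity)) fun T => ?_
    obtain ⟨y, hy⟩ : ∃ y : ℕ, ∀ p ∈ T, (p : ℕ) < y := by
      refine ⟨(T.sup fun p => (p : ℕ)) + 1, fun p hp => ?_⟩
      have := Finset.le_sup (f := fun p : Nat.Primes => (p : ℕ)) hp
      omega
    have h1 := Real.le_log_iff_exp_le hpos |>.mpr (hpart x hx hx2 y)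
    refine le_trans ?_ h1
    have h2 : ∑ p ∈ T, uu g k p * (p : ℝ) ^ (-x)
        = ∑ p ∈ T.map ⟨fun p : Nat.Primes => (p : ℕ), Subtype.val_injective⟩,
          uu g k p * (p : ℝ) ^ (-x) := by
      rw [Finset.sum_map]; rfl
    rw [h2]
    refine Finset.sum_le_sum_of_subset_of_nonneg ?_
      (fun p _ _ => mul_nonneg (uu_nonneg g k p) (by positivity))
    intro p hp
    rw [Finset.mem_map] at hp
    obtain ⟨q, hq, rfl⟩ := hp
    exact Nat.mem_primesBelow.mpr ⟨hy q hq, q.2⟩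
  have hsumm : ∀ x : ℝ, -θ < x → Summable fun p : Nat.Primes => uu g k p * (p : ℝ) ^ (-x) := by
    intro x hx
    rcases le_total x 2 with h2 | h2
    · exact hsumm2 x hx h2
    · exact uu_summable_one h x (by linarith)
  refine ⟨G, Gc, hG, hGc, hG2, hGc2, hsumm, ?_⟩
  -- identity theorem
  have hUd : DifferentiableOn ℂ (fun s : ℂ => Complex.exp (∑' p : Nat.Primes,
      (uu g k p : ℂ) * (p : ℂ) ^ (-s))) {s | -θ < s.re} := by
    intro s hs
    have hs' : -θ < s.re := hs
    have hd := Complex.differentiableOn_tsum_of_summable_norm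
      (F := fun (p : Nat.Primes) (s : ℂ) => (uu g k p : ℂ) * (p : ℂ) ^ (-s))
      (hsumm ((-θ + s.re) / 2) (by linarith)) (U := {z : ℂ | (-θ + s.re) / 2 < z.re})
      (fun p z _ => by
        have hp0 : (p : ℂ) ≠ 0 := by exact_mod_cast p.2.ne_zero
        exact ((DifferentiableAt.const_cpow differentiableAt_id.neg
          (Or.inl hp0)).const_mul _).differentiableWithinAt) (halfplane_open _)
      (fun p z hz => by
        have hz' : (-θ + s.re) / 2 < z.re := hz
        rw [norm_term_le _ (uu_nonneg g k) p p.2]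
        have hp1 : (1 : ℝ) < p := by exact_mod_cast p.2.one_lt
        have := uu_nonneg g k p
        gcongr
        · exact hp1.le)
    have h1 := hd.differentiableAt ((halfplane_open _).mem_nhds (show s ∈ {z : ℂ |
      (-θ + s.re) / 2 < z.re} by show (-θ + s.re) / 2 < s.re; linarith))
    exact (h1.cexp).differentiableWithinAt
  have hpre : IsPreconnected {s : ℂ | -θ < s.re} := (convex_halfSpace_re_gt (-θ)).isPreconnected
  have hA1 := hUd.analyticOnNhd (halfplane_open _)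
  have hA2 := hRd.analyticOnNhd (halfplane_open _)
  have heq := hA1.eqOn_of_preconnected_of_eventuallyEq hA2 hpre
    (z₀ := (2 : ℂ)) (by show -θ < (2 : ℂ).re; simp; linarith) (by
      filter_upwards [(halfplane_open 1).mem_nhds (show (2 : ℂ) ∈ {s : ℂ | 1 < s.re} by simp)]
        with s hs
      exact hRone s hs)
  intro s hs
  exact heq hs

/-- Part A: decay forces a zero free region of zeta -/
theorem zeta_free {g : ArithmeticFunction ℂ} {k : ℕ} {C θ : ℝ} (h : Cls g k C θ) (ρ : ℂ)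
    (h1 : ρ ≠ 1) (hρ : 1 - θ < ρ.re) : riemannZeta ρ ≠ 0 := by
  intro hz
  obtain ⟨G, Gc, _, _, _, _, _, hid⟩ := main_id h
  have h2 := hid (ρ - 1) (by
    rw [Complex.sub_re, Complex.one_re]; linarith)
  rw [ZZ_eq (ρ - 1) (sub_ne_zero.mpr h1), sub_add_cancel, hz, mul_zero, zero_pow (by
    have := h.k1; omega), mul_zero, zero_mul] at h2
  exact Complex.exp_ne_zero _ h2

end Pool.Agent.T6.H78.CK
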