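import Mathlib
import Pool.Agent.T6.H78.CK.E5

set_option autoImplicit false

open ArithmeticFunction Finset Filter Topology MeasureTheory
open scoped ComplexOrder ComplexConjugate

namespace Pool.Agent.T6.H78.CK

open Pool.H232R3

/-! ### real inequalities -/

lemma neg_log_ge (t : ℝ) (h0 : 0 ≤ t) (h1 : t < 1) : t + t ^ 2 / 2 ≤ -Real.log (1 - t) := by
  have h := Real.hasSum_pow_div_log_of_abs_lt_one (x := t) (by rw [abs_of_nonneg h0]; exact h1)
  have h2 := sum_le_hasSum (Finset.range 2) (fun n _ => by positivity) h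
  simp [Finset.sum_range_succ] at h2
  norm_num at h2
  linarith

lemma log_le_cubic (y : ℝ) (hy : 0 ≤ y) : Real.log (1 + y) ≤ y - y ^ 2 / 2 + y ^ 3 / 3 := by
  have key : MonotoneOn (fun y : ℝ => y - y ^ 2 / 2 + y ^ 3 / 3 - Real.log (1 + y)) (Set.Ici 0) := by
    have hd : ∀ y : ℝ, 0 ≤ y → HasDerivAt
        (fun y : ℝ => y - y ^ 2 / 2 + y ^ 3 / 3 - Real.log (1 + y))
        (1 - 2 * y / 2 + 3 * y ^ 2 / 3 - 1 / (1 + y)) y := by
      intro y hy
      have h1 : HasDerivAt (fun y : ℝ => Real.log (1 + y)) (1 / (1 + y)) y := by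
        have := (((hasDerivAt_id y).const_add 1).log (by show (1 : ℝ) + y ≠ 0; positivity))
        exact this
      have h2 : HasDerivAt (fun y : ℝ => y ^ 2 / 2) (2 * y / 2) y := by
        simpa using (hasDerivAt_pow 2 y).div_const 2
      have h3 : HasDerivAt (fun y : ℝ => y ^ 3 / 3) (3 * y ^ 2 / 3) y := by
        simpa using (hasDerivAt_pow 3 y).div_const 3
      exact (((hasDerivAt_id y).sub h2).add h3).sub h1
    refine monotoneOn_of_deriv_nonneg (convex_Ici 0) ?_ ?_ ?_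
    · intro y hy; exact (hd y hy).continuousAt.continuousWithinAt
    · intro y hy
      rw [interior_Ici] at hy
      exact (hd y (le_of_lt hy)).differentiableAt.differentiableWithinAt
    · intro y hy
      rw [interior_Ici] at hy
      have hy0 : 0 < y := hy
      rw [(hd y hy0.le).deriv]
      have e : 1 - 2 * y / 2 + 3 * y ^ 2 / 3 - 1 / (1 + y) = y ^ 3 / (1 + y) := by
        field_simp
        ring
      rw [e]
      positivity
  have h := key (Set.mem_Ici.mpr (le_refl (0 : ℝ))) (Set.mem_Ici.mpr hy) hy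
  simp at h
  linarith

/-- local estimate: `m = k(k+1)/2` -/
lemma local_log (k : ℕ) (t b w : ℝ) (ht0 : 0 ≤ t) (ht1 : t < 1) (hb : 0 ≤ b) (hw0 : 0 < w)
    (hw : w ≤ 1 + k * t + b) :
    (k * (k + 1) / 2 : ℝ) * t ^ 2 - (k : ℝ) ^ 3 / 3 * t ^ 3 - b ≤
      -(k * Real.log (1 - t)) - Real.log w := by
  have hk : (0 : ℝ) ≤ k := Nat.cast_nonneg k
  have h1 := neg_log_ge t ht0 ht1
  have h2 := log_le_cubic (k * t) (by positivity)
  have h3 : Real.log w ≤ Real.log (1 + k * t) + b := by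
    have h4 : Real.log w ≤ Real.log ((1 + k * t) * (1 + b)) := by
      refine Real.log_le_log hw0 (hw.trans ?_)
      have : 0 ≤ k * t * b := by positivity
      nlinarith
    rw [Real.log_mul (by positivity) (by positivity)] at h4
    have h5 := Real.log_le_sub_one_of_pos (show 0 < 1 + b by linarith)
    linarith
  have h6 : k * (t + t ^ 2 / 2) ≤ k * -Real.log (1 - t) := mul_le_mul_of_nonneg_left h1 hk
  nlinarith

/-- the prime zeta function near 1 -/
lemma prime_zeta : ∃ c δ : ℝ, 0 < c ∧ 0 < δ ∧ ∀ q : ℝ, 1 < q → q < 1 + δ →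
    c / (q - 1) ≤ Real.exp (∑' p : Nat.Primes, (p : ℝ) ^ (-q)) := by
  have hlim := tendsto_sub_mul_tsum_nat_rpow
  have hev : ∀ᶠ q in 𝓝[>] (1 : ℝ), 1 / 2 < (q - 1) * ∑' n : ℕ, 1 / (n : ℝ) ^ q :=
    (tendsto_order.mp hlim).1 _ (by norm_num)
  rw [eventually_nhdsWithin_iff, Metric.eventually_nhds_iff] at hev
  obtain ⟨δ, hδ, hev⟩ := hev
  set C1 : ℝ := ∑' p : Nat.Primes, (p : ℝ) ^ (-2 : ℝ) with hC1
  refine ⟨Real.exp (-(2 * C1)) / 2, δ, by positivity, hδ, fun q hq hqδ => ?_⟩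
  have h1 := hev (y := q) (by rw [Real.dist_eq, abs_of_pos (by linarith)]; linarith) hq
  have hsq : Summable fun p : Nat.Primes => (p : ℝ) ^ (-q) := summable_prime_rpow _ (by linarith)
  have hs2 : Summable fun p : Nat.Primes => (p : ℝ) ^ (-2 : ℝ) := summable_prime_rpow _ (by norm_num)
  have h2 : ∑' n : ℕ, 1 / (n : ℝ) ^ q ≤ Real.exp (∑' p : Nat.Primes, (p : ℝ) ^ (-q) + 2 * C1) := by
    refine Real.tsum_le_of_sum_range_le (fun n => by positivity) fun N => ?_
    refine (sum_le_prod q hq N).trans ?_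
    have h3 : ∏ p ∈ N.primesBelow, (1 - (p : ℝ) ^ (-q))⁻¹ ≤
        ∏ p ∈ N.primesBelow, Real.exp ((p : ℝ) ^ (-q) + 2 * (p : ℝ) ^ (-2 : ℝ)) := by
      refine Finset.prod_le_prod (fun p hp => ?_) (fun p hp => ?_)
      · have hpp := Nat.prime_of_mem_primesBelow hp
        have : (p : ℝ) ^ (-q) < 1 :=
          Real.rpow_lt_one_of_one_lt_of_neg (by exact_mod_cast hpp.one_lt) (by linarith)
        rw [inv_nonneg]; linarith
      · have hpp := Nat.prime_of_mem_primesBelow hp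
        have hp2 : (2 : ℝ) ≤ p := by exact_mod_cast hpp.two_le
        have hp0 : (0 : ℝ) < p := by linarith
        set a : ℝ := (p : ℝ) ^ (-q) with ha
        have ha0 : 0 < a := by positivity
        have ha1 : a ≤ 1 / 2 := by
          have h4 : a ≤ (p : ℝ) ^ (-1 : ℝ) :=
            Real.rpow_le_rpow_of_exponent_le (by linarith) (by linarith)
          rw [Real.rpow_neg_one] at h4
          refine h4.trans ?_
          rw [one_div]
          exact inv_anti₀ (by norm_num) hp2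
        have ha2 : a ^ 2 ≤ (p : ℝ) ^ (-2 : ℝ) := by
          rw [ha, ← Real.rpow_natCast, ← Real.rpow_mul hp0.le]
          refine Real.rpow_le_rpow_of_exponent_le (by linarith) ?_
          push_cast
          linarith
        have h5 : (1 - a)⁻¹ ≤ 1 + a + 2 * a ^ 2 := by
          rw [inv_le_iff_one_le_mul₀ (by linarith)]
          nlinarith [mul_nonneg ha0.le (sq_nonneg a)]
        calc (1 - a)⁻¹ ≤ 1 + a + 2 * a ^ 2 := h5
          _ ≤ (a + 2 * (p : ℝ) ^ (-2 : ℝ)) + 1 := by linarith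
          _ ≤ _ := Real.add_one_le_exp _
    refine h3.trans ?_
    rw [← Real.exp_sum, Finset.sum_add_distrib]
    refine Real.exp_le_exp.mpr (add_le_add ?_ ?_)
    · have h6 : HasSum ((fun p : ℕ => (p : ℝ) ^ (-q)) ∘ ((↑) : Nat.Primes → ℕ))
        (∑' p : Nat.Primes, (p : ℝ) ^ (-q)) := hsq.hasSum
      have h7 := (hasSum_subtype_iff_indicator (f := fun p : ℕ => (p : ℝ) ^ (-q))
        (s := {p : ℕ | p.Prime})).mp h6
      refine le_trans (le_of_eq ?_) (sum_le_hasSum (Finset.range N) (fun p _ =>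
        Set.indicator_nonneg (fun q _ => by positivity) p) h7)
      rw [Nat.primesBelow, Finset.sum_filter]
      refine Finset.sum_congr rfl fun p _ => ?_
      simp [Set.indicator_apply]
    · have h6 : HasSum ((fun p : ℕ => (p : ℝ) ^ (-2 : ℝ)) ∘ ((↑) : Nat.Primes → ℕ)) C1 := hs2.hasSum
      have h7 := (hasSum_subtype_iff_indicator (f := fun p : ℕ => (p : ℝ) ^ (-2 : ℝ))
        (s := {p : ℕ | p.Prime})).mp h6
      rw [← Finset.mul_sum]
      refine mul_le_mul_of_nonneg_left (le_trans (le_of_eq ?_) (sum_le_hasSum (Finset.range N)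
        (fun p _ => Set.indicator_nonneg (fun q _ => by positivity) p) h7)) (by norm_num)
      rw [Nat.primesBelow, Finset.sum_filter]
      refine Finset.sum_congr rfl fun p _ => ?_
      simp [Set.indicator_apply]
  have hq1 : 0 < q - 1 := by linarith
  have h8 : 1 / 2 < (q - 1) * Real.exp (∑' p : Nat.Primes, (p : ℝ) ^ (-q) + 2 * C1) :=
    h1.trans_le (by gcongr)
  rw [Real.exp_add] at h8
  rw [div_le_iff₀ hq1, div_le_iff₀ (by norm_num : (0:ℝ) < 2)]
  have h9 : Real.exp (-(2 * C1)) * Real.exp (2 * C1) = 1 := by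
    rw [← Real.exp_add]; simp
  have h10 : 0 < Real.exp (-(2 * C1)) := Real.exp_pos _
  nlinarith

/-! ### upper bound of the Mellin transform -/

/-- little o with a power of the logarithm -/
def LO (f : ℕ → ℂ) (m : ℕ) : Prop := ∀ ε : ℝ, 0 < ε → ∃ N₀ : ℕ, ∀ N : ℕ, N₀ ≤ N →
  ‖SS f N‖ ≤ ε * ((N : ℝ) ^ (-(1 / 2) : ℝ) * (Real.log N) ^ m)

lemma LO_dec (f : ℕ → ℂ) (m : ℕ) (h : LO f m) : Dec f (1 / 2) := by
  intro θ' h0 h1
  obtain ⟨K, hK0, hK⟩ := log_pow_le m (1 / 2 - θ') (by linarith)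
  obtain ⟨N₀, hN₀⟩ := h 1 one_pos
  -- bound for small N
  set B : ℝ := ∑ N ∈ Finset.range (N₀ + 1), ‖SS f N‖ * (N : ℝ) ^ θ' with hB
  have hB0 : 0 ≤ B := Finset.sum_nonneg fun N _ => by positivity
  refine ⟨K + B, by linarith, fun N hN => ?_⟩
  have hN1 : (1 : ℝ) ≤ N := by exact_mod_cast hN
  have hN0 : (0 : ℝ) < N := by linarith
  rcases le_total N₀ N with hle | hle
  · refine (hN₀ N hle).trans ?_
    rw [one_mul]
    calc (N : ℝ) ^ (-(1 / 2) : ℝ) * (Real.log N) ^ m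
        ≤ (N : ℝ) ^ (-(1 / 2) : ℝ) * (K * (N : ℝ) ^ (1 / 2 - θ')) := by
          gcongr; exact hK _ hN1
      _ = K * ((N : ℝ) ^ (-(1 / 2) : ℝ) * (N : ℝ) ^ (1 / 2 - θ')) := by ring
      _ = K * (N : ℝ) ^ (-θ') := by rw [← Real.rpow_add hN0]; congr 2; ring
      _ ≤ _ := by gcongr; linarith
  · have h2 : ‖SS f N‖ * (N : ℝ) ^ θ' ≤ B :=
      Finset.single_le_sum (f := fun N : ℕ => ‖SS f N‖ * (N : ℝ) ^ θ') (fun N _ => by positivity)
        (Finset.mem_range.mpr (by omega))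
    have h3 : ‖SS f N‖ = ‖SS f N‖ * (N : ℝ) ^ θ' * (N : ℝ) ^ (-θ') := by
      rw [mul_assoc, ← Real.rpow_add hN0]; simp
    rw [h3]
    gcongr
    linarith

lemma Phi_upper (f : ℕ → ℂ) (m : ℕ) (h : LO f m) : ∃ A : ℝ, 0 < A ∧ ∀ ε : ℝ, 0 < ε →
    ∃ B : ℝ, 0 ≤ B ∧ ∀ η : ℝ, 0 < η → η ≤ 1 / 2 →
      ‖Phi f ((η - 1 / 2 : ℝ) : ℂ)‖ ≤ B + ε * A / η ^ (m + 1) := by
  obtain ⟨C, hC0, hb⟩ := dec_bound f (1 / 2) (by norm_num) (LO_dec f m h)
  refine ⟨2 * (m.factorial * 2 ^ (m + 1)), by positivity, fun ε hε => ?_⟩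
  obtain ⟨N₀, hN₀⟩ := h ε hε
  set T : ℝ := max N₀ 1 with hT
  have hT1 : 1 ≤ T := le_max_right _ _
  refine ⟨C * (T - 1), by nlinarith, fun η hη hη2 => ?_⟩
  rw [Phi_eq_integral]
  -- (log t)^m ≤ m! (2/η)^m t^(η/2)
  have hlog : ∀ t : ℝ, 1 ≤ t → (Real.log t) ^ m ≤ m.factorial * (2 / η) ^ m * t ^ (η / 2) := by
    intro t ht
    have ht0 : 0 < t := by linarith
    have hl : 0 ≤ Real.log t := Real.log_nonneg ht
    have h := Real.pow_div_factorial_le_exp ((η / 2) * Real.log t) (by positivity) m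
    have e : Real.exp ((η / 2) * Real.log t) = t ^ (η / 2) := by
      rw [Real.rpow_def_of_pos ht0, mul_comm]
    rw [e, mul_pow] at h
    have h2 : 0 < (m.factorial : ℝ) := by positivity
    rw [div_le_iff₀ h2] at h
    have h3 : (Real.log t) ^ m = (2 / η) ^ m * ((η / 2) ^ m * Real.log t ^ m) := by
      rw [← mul_assoc, ← mul_pow]
      have : 2 / η * (η / 2) = 1 := by field_simp
      rw [this, one_pow, one_mul]
    rw [h3]
    calc (2 / η) ^ m * ((η / 2) ^ m * Real.log t ^ m)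
        ≤ (2 / η) ^ m * (t ^ (η / 2) * m.factorial) := by gcongr
      _ = _ := by ring
  have hSb : ∀ t : ℝ, 1 < t → T < t → ‖SS f ⌊t⌋₊‖ ≤ 2 * ε * (t ^ (-(1 / 2) : ℝ) * (Real.log t) ^ m) := by
    intro t ht1 htT
    have ht0 : 0 < t := by linarith
    have hN : N₀ ≤ ⌊t⌋₊ := Nat.le_floor ((le_max_left _ _).trans htT.le)
    have hfl : t < ⌊t⌋₊ + 1 := Nat.lt_floor_add_one t
    have hf1 : (1 : ℝ) ≤ ⌊t⌋₊ := by
      have : 1 ≤ ⌊t⌋₊ := Nat.le_floor (by simpa using ht1.le)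
      exact_mod_cast this
    have hft : (⌊t⌋₊ : ℝ) ≤ t := Nat.floor_le ht0.le
    refine (hN₀ _ hN).trans ?_
    have h5 : ((⌊t⌋₊ : ℕ) : ℝ) ^ (-(1 / 2) : ℝ) ≤ 2 * t ^ (-(1 / 2) : ℝ) := by
      have h6 : ((⌊t⌋₊ : ℕ) : ℝ) ^ (-(1 / 2) : ℝ) ≤ (t / 4) ^ (-(1 / 2) : ℝ) :=
        Real.rpow_le_rpow_of_nonpos (by positivity) (by linarith) (by norm_num)
      refine h6.trans (le_of_eq ?_)
      rw [Real.div_rpow ht0.le (by norm_num)]
      have : (4 : ℝ) ^ (-(1 / 2) : ℝ) = 1 / 2 := by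
        rw [show (4 : ℝ) = 2 ^ (2 : ℝ) by norm_num, ← Real.rpow_mul (by norm_num)]
        norm_num
      rw [this]
      ring
    have h7 : (Real.log ((⌊t⌋₊ : ℕ) : ℝ)) ^ m ≤ (Real.log t) ^ m := by
      have := Real.log_nonneg hf1
      gcongr
    calc ε * (((⌊t⌋₊ : ℕ) : ℝ) ^ (-(1 / 2) : ℝ) * (Real.log ((⌊t⌋₊ : ℕ) : ℝ)) ^ m)
        ≤ ε * ((2 * t ^ (-(1 / 2) : ℝ)) * (Real.log t) ^ m) := by
          have := Real.log_nonneg hf1
          gcongr
      _ = _ := by ring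
  set E : ℝ := 2 * ε * (m.factorial * (2 / η) ^ m) with hE
  have hE0 : 0 < E := by positivity
  have hint1 : IntegrableOn (fun t : ℝ => E * t ^ (-1 - η / 2 : ℝ)) (Set.Ioi 1) :=
    int_rpow (η / 2) (by linarith) E
  have hint2 : IntegrableOn (fun t : ℝ => (Set.Ioc (1 : ℝ) T).indicator (fun _ => C) t) (Set.Ioi 1) := by
    refine (Integrable.integrableOn ?_)
    rw [integrable_indicator_iff measurableSet_Ioc]
    exact integrableOn_const (by simp)
  have hle : ‖∫ t in Set.Ioi (1 : ℝ), SS f ⌊t⌋₊ * (t : ℂ) ^ (-((((η - 1 / 2 : ℝ) : ℂ)) + 1))‖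
      ≤ ∫ t in Set.Ioi (1 : ℝ), ((Set.Ioc (1 : ℝ) T).indicator (fun _ => C) t
        + E * t ^ (-1 - η / 2 : ℝ)) := by
    refine norm_integral_le_of_norm_le (hint2.add hint1) ?_
    rw [ae_restrict_iff' measurableSet_Ioi]
    refine Eventually.of_forall fun t ht => ?_
    have ht1 : (1 : ℝ) < t := ht
    have ht0 : 0 < t := by linarith
    rw [norm_mul, Complex.norm_cpow_eq_rpow_re_of_pos ht0]
    have hre : (-((((η - 1 / 2 : ℝ) : ℂ)) + 1)).re = -(1 / 2) - η := by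
      rw [Complex.neg_re, Complex.add_re, Complex.ofReal_re, Complex.one_re]; ring
    rw [hre]
    by_cases htT : t ≤ T
    · rw [Set.indicator_of_mem (show t ∈ Set.Ioc 1 T from ⟨ht1, htT⟩)]
      have h2 : t ^ (-(1 / 2) - η : ℝ) ≤ 1 :=
        Real.rpow_le_one_of_one_le_of_nonpos ht1.le (by linarith)
      have h3 : 0 ≤ E * t ^ (-1 - η / 2 : ℝ) := by positivity
      calc ‖SS f ⌊t⌋₊‖ * t ^ (-(1 / 2) - η : ℝ) ≤ C * 1 := by
            refine mul_le_mul (hb _) h2 (by positivity) hC0.le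
        _ ≤ C + E * t ^ (-1 - η / 2 : ℝ) := by linarith
    · rw [Set.indicator_of_notMem (show t ∉ Set.Ioc 1 T from fun h => htT h.2), zero_add]
      push Not at htT
      have h1 := hSb t ht1 htT
      calc ‖SS f ⌊t⌋₊‖ * t ^ (-(1 / 2) - η : ℝ)
          ≤ (2 * ε * (t ^ (-(1 / 2) : ℝ) * (m.factorial * (2 / η) ^ m * t ^ (η / 2))))
            * t ^ (-(1 / 2) - η : ℝ) := by
            gcongr
            exact h1.trans (by gcongr; exact hlog t ht1.le)
        _ = E * (t ^ (-(1 / 2) : ℝ) * t ^ (η / 2) * t ^ (-(1 / 2) - η : ℝ)) := by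
            rw [hE]; ring
        _ = _ := by
            rw [← Real.rpow_add ht0, ← Real.rpow_add ht0]
            congr 2
            ring
  refine hle.trans ?_
  rw [integral_add hint2 hint1]
  have e1 : ∫ t in Set.Ioi (1 : ℝ), (Set.Ioc (1 : ℝ) T).indicator (fun _ => C) t = C * (T - 1) := by
    rw [setIntegral_indicator measurableSet_Ioc]
    have : Set.Ioi (1 : ℝ) ∩ Set.Ioc 1 T = Set.Ioc 1 T := by
      ext t; simp
    rw [this, setIntegral_const]
    simp [Real.volume_real_Ioc_of_le hT1, mul_comm]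
  have e2 : ∫ t in Set.Ioi (1 : ℝ), E * t ^ (-1 - η / 2 : ℝ) = E * (2 / η) := by
    rw [integral_const_mul, integral_Ioi_rpow_of_lt (by linarith) one_pos]
    rw [Real.one_rpow]
    have hne : η ≠ 0 := hη.ne'
    have : -1 - η / 2 + 1 = -(η / 2) := by ring
    rw [this, neg_div_neg_eq]
    congr 1
    field_simp
  rw [e1, e2]
  refine le_of_eq ?_
  congr 1
  rw [hE, div_pow]
  field_simp
  ring

end Pool.Agent.T6.H78.CK
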