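import Mathlib
import Pool.Agent.T6.H78.CK.E6

set_option autoImplicit false

open ArithmeticFunction Finset Filter Topology MeasureTheory
open scoped ComplexOrder ComplexConjugate

namespace Pool.Agent.T6.H78.CK

open Pool.H232R3

open Classical in
/-- two-sided excess -/
noncomputable def e2 (g : ArithmeticFunction ℂ) (k : ℕ) (p : ℕ) : ℝ :=
  if (g p).im = 0 ∧ 0 ≤ (g p).re then 0 else max (‖g p‖ - k / p) 0

lemma e2_nonneg (g : ArithmeticFunction ℂ) (k : ℕ) (p : ℕ) : 0 ≤ e2 g k p := by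
  unfold e2
  split_ifs
  · exact le_rfl
  · exact le_max_right _ _

/-- real part of `vv` on the real axis -/
lemma vv_re {g : ArithmeticFunction ℂ} {k : ℕ} (p : ℕ) (hp : p.Prime) (x : ℝ) :
    (vv g k p (x : ℂ)).re = uu g k p * (p : ℝ) ^ (-x)
      + 2 * (k * Real.log ‖1 - (p : ℂ)⁻¹ * (p : ℂ) ^ (-(x : ℂ))‖)
      + 2 * Real.log ‖1 - g p * (p : ℂ) ^ (-(x : ℂ))‖ := by
  have hp0 : (0 : ℝ) < p := by exact_mod_cast hp.pos
  have hpc : (p : ℂ) ^ (-(x : ℂ)) = (((p : ℝ) ^ (-x) : ℝ) : ℂ) := by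
    rw [Complex.ofReal_cpow hp0.le]
    push_cast
    rfl
  have h1 : ‖1 - conj (g p) * (p : ℂ) ^ (-(x : ℂ))‖ = ‖1 - g p * (p : ℂ) ^ (-(x : ℂ))‖ := by
    rw [← RCLike.norm_conj (1 - g p * (p : ℂ) ^ (-(x : ℂ))), map_sub, map_one, map_mul, hpc,
      Complex.conj_ofReal]
  rw [vv_eq, Complex.add_re, Complex.add_re, Complex.add_re, Complex.log_re, Complex.log_re, h1]
  have h2 : ((uu g k p : ℂ) * (p : ℂ) ^ (-(x : ℂ))).re = uu g k p * (p : ℝ) ^ (-x) := by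
    rw [hpc, ← Complex.ofReal_mul, Complex.ofReal_re]
  have h3 : (2 * (k : ℂ) * Complex.log (1 - (p : ℂ)⁻¹ * (p : ℂ) ^ (-(x : ℂ)))).re
      = 2 * (k * Real.log ‖1 - (p : ℂ)⁻¹ * (p : ℂ) ^ (-(x : ℂ))‖) := by
    have : (2 * (k : ℂ)) = ((2 * k : ℝ) : ℂ) := by push_cast; rfl
    rw [this, Complex.re_ofReal_mul, Complex.log_re]
    ring
  rw [h2, h3]
  ring

lemma d_lower {g : ArithmeticFunction ℂ} {k : ℕ} {C : ℝ} (h : Cls g k C (1 / 2)) (p : ℕ)
    (hp : p.Prime) (η : ℝ) (hη : 0 < η) (hη2 : η ≤ 1 / 2) :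
    (k * (k + 1) : ℝ) * (p : ℝ) ^ (-(1 + 2 * η)) - 2 * ((k : ℝ) ^ 3 / 3) * (p : ℝ) ^ (-(3 / 2) : ℝ)
      - 2 * (Real.sqrt p * e2 g k p) ≤
    uu g k p * (p : ℝ) ^ (-(η - 1 / 2)) - (vv g k p ((η - 1 / 2 : ℝ) : ℂ)).re := by
  have hp1 : (1 : ℝ) < p := by exact_mod_cast hp.one_lt
  have hp0 : (0 : ℝ) < p := by linarith
  set x : ℝ := η - 1 / 2 with hx
  obtain ⟨q, hq0, hq1, hq⟩ := arg_bound h x (by rw [hx]; linarith)
  obtain ⟨q1, q2⟩ := hq p hp (x : ℂ) (by simp)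
  set t : ℝ := (p : ℝ) ^ (-1 - x) with ht
  have ht0 : 0 < t := by positivity
  have hpc : (p : ℂ) ^ (-(x : ℂ)) = (((p : ℝ) ^ (-x) : ℝ) : ℂ) := by
    rw [Complex.ofReal_cpow hp0.le]
    push_cast
    rfl
  have et : (p : ℝ)⁻¹ * (p : ℝ) ^ (-x) = t := by
    rw [ht, ← Real.rpow_neg_one, ← Real.rpow_add hp0]
    congr 1
  have e1 : (p : ℂ)⁻¹ * (p : ℂ) ^ (-(x : ℂ)) = (t : ℂ) := by
    rw [hpc, ← et]; push_cast; rfl
  have ht1 : t < 1 := by
    rw [e1, Complex.norm_real, Real.norm_eq_abs, abs_of_pos ht0] at q1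
    linarith
  have e3 : ‖1 - (p : ℂ)⁻¹ * (p : ℂ) ^ (-(x : ℂ))‖ = 1 - t := by
    rw [e1, ← Complex.ofReal_one, ← Complex.ofReal_sub, Complex.norm_real, Real.norm_eq_abs,
      abs_of_nonneg (by linarith)]
  have hw0 : 0 < ‖1 - g p * (p : ℂ) ^ (-(x : ℂ))‖ := by
    rw [norm_pos_iff]
    intro h0
    rw [sub_eq_zero] at h0
    rw [← h0] at q2
    simp at q2
    linarith
  set b : ℝ := e2 g k p * (p : ℝ) ^ (-x) with hb
  have hb0 : 0 ≤ b := mul_nonneg (e2_nonneg _ _ _) (by positivity)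
  have hw : ‖1 - g p * (p : ℂ) ^ (-(x : ℂ))‖ ≤ 1 + k * t + b := by
    have hkt : 0 ≤ (k : ℝ) * t := by positivity
    by_cases hc : (g p).im = 0 ∧ 0 ≤ (g p).re
    · have h3 : g p = ((g p).re : ℂ) := by
        apply Complex.ext
        · simp
        · simp [hc.1]
      have e6 : g p * (p : ℂ) ^ (-(x : ℂ)) = (((g p).re * (p : ℝ) ^ (-x) : ℝ) : ℂ) := by
        rw [Complex.ofReal_mul, ← h3, hpc]
      have h7 : 0 ≤ (g p).re * (p : ℝ) ^ (-x) := mul_nonneg hc.2 (by positivity)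
      rw [e6, Complex.norm_real, Real.norm_eq_abs, abs_of_nonneg h7] at q2
      rw [e6, ← Complex.ofReal_one, ← Complex.ofReal_sub, Complex.norm_real, Real.norm_eq_abs,
        abs_of_nonneg (by linarith)]
      linarith
    · have h8 : ‖g p‖ ≤ k / p + e2 g k p := by
        unfold e2
        rw [if_neg hc]
        have := le_max_left (‖g p‖ - k / p) 0
        linarith
      refine (norm_sub_le _ _).trans ?_
      rw [norm_one, norm_mul, norm_cpow_real p hp, Complex.ofReal_re]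
      calc 1 + ‖g p‖ * (p : ℝ) ^ (-x) ≤ 1 + (k / p + e2 g k p) * (p : ℝ) ^ (-x) := by gcongr
        _ = 1 + k * ((p : ℝ)⁻¹ * (p : ℝ) ^ (-x)) + b := by rw [hb]; ring
        _ = _ := by rw [et]
  have hloc := local_log k t b _ ht0.le ht1 hb0 hw0 hw
  rw [vv_re p hp x, e3]
  have ht2 : t ^ 2 = (p : ℝ) ^ (-(1 + 2 * η)) := by
    rw [ht, ← Real.rpow_natCast, ← Real.rpow_mul hp0.le]
    congr 1
    rw [hx]
    push_cast
    ring
  have ht3 : t ^ 3 ≤ (p : ℝ) ^ (-(3 / 2) : ℝ) := by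
    rw [ht, ← Real.rpow_natCast, ← Real.rpow_mul hp0.le]
    refine Real.rpow_le_rpow_of_exponent_le hp1.le ?_
    rw [hx]
    push_cast
    linarith
  have hbs : b ≤ Real.sqrt p * e2 g k p := by
    rw [hb, Real.sqrt_eq_rpow, mul_comm]
    have := e2_nonneg g k p
    gcongr
    · exact hp1.le
    · rw [hx]; linarith
  have hk3 : 0 ≤ (k : ℝ) ^ 3 / 3 := by positivity
  have h10 := mul_le_mul_of_nonneg_left ht3 hk3
  rw [ht2] at hloc
  linarith

lemma LO_cj (g : ArithmeticFunction ℂ) (m : ℕ) (h : LO (fun n => g n) m) :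
    LO (fun n => cj g n) m := by
  intro ε hε
  obtain ⟨N₀, hN₀⟩ := h ε hε
  refine ⟨N₀, fun N hN => ?_⟩
  rw [SS_cj, RCLike.norm_conj]
  exact hN₀ N hN

theorem omega_core {g : ArithmeticFunction ℂ} {k : ℕ} {C : ℝ} (h : Cls g k C (1 / 2))
    (h2 : Summable fun p : Nat.Primes => Real.sqrt p * e2 g k p) (m : ℕ) (hm : 2 * m = k * (k + 1))
    (hLO : LO (fun n => g n) (m - 1)) : False := by
  have hk1 := h.k1
  have hm1 : 1 ≤ m := by
    have : 1 * 2 ≤ k * (k + 1) := Nat.mul_le_mul hk1 (by omega)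
    omega
  have hmk : (k * (k + 1) : ℝ) = 2 * m := by exact_mod_cast hm.symm
  obtain ⟨G, Gc, hG, hGc, hG2, hGc2, hsumm, hid⟩ := main_id h
  obtain ⟨A₁, hA₁, hup₁⟩ := Phi_upper _ _ hLO
  obtain ⟨A₂, hA₂, hup₂⟩ := Phi_upper _ _ (LO_cj g _ hLO)
  obtain ⟨c, δ, hc, hδ, hpz⟩ := prime_zeta
  -- bound for Z
  obtain ⟨K, hK⟩ : ∃ K : ℝ, ∀ s ∈ Metric.closedBall (0 : ℂ) 1, ‖ZZ s‖ ≤ K :=
    (isCompact_closedBall (0 : ℂ) 1).exists_bound_of_continuousOn ZZ_diff.continuous.continuousOn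
  have hK0 : 0 ≤ K := (norm_nonneg _).trans (hK 0 (by simp))
  set K1 : ℝ := ∑' p : Nat.Primes, (2 * ((k : ℝ) ^ 3 / 3) * (p : ℝ) ^ (-(3 / 2) : ℝ)
      + 2 * (Real.sqrt p * e2 g k p)) with hK1
  have hK1s : Summable fun p : Nat.Primes => (2 * ((k : ℝ) ^ 3 / 3) * (p : ℝ) ^ (-(3 / 2) : ℝ)
      + 2 * (Real.sqrt p * e2 g k p)) :=
    ((summable_prime_rpow _ (by norm_num)).mul_left _).add (h2.mul_left 2)
  -- lower bound
  have hlow : ∀ η : ℝ, 0 < η → η ≤ 1 / 4 → 2 * η < δ →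
      (1 / 4 : ℝ) ^ (2 * (k - 1)) * (Real.exp (-K1) * (c / (2 * η)) ^ (2 * m)) ≤
      (K + 1) ^ (2 * k) * (‖Phi (fun n => g n) ((η - 1 / 2 : ℝ) : ℂ)‖ *
        ‖Phi (fun n => cj g n) ((η - 1 / 2 : ℝ) : ℂ)‖) := by
    intro η hη hη4 hηδ
    set x : ℝ := η - 1 / 2 with hx
    have hx1 : -(1 / 2 : ℝ) < x := by rw [hx]; linarith
    have hid' := hid (x : ℂ) (by rw [Complex.ofReal_re]; linarith)
    obtain ⟨M, hM, hM2⟩ := vv_dom h x (by linarith)
    have hvs : Summable fun p : Nat.Primes => vv g k p (x : ℂ) :=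
      Summable.of_norm_bounded hM fun p => hM2 p _ (by simp)
    have hus := hsumm x (by linarith)
    have hvr : Summable fun p : Nat.Primes => (vv g k p (x : ℂ)).re :=
      (Complex.hasSum_re hvs.hasSum).summable
    have hn := congrArg norm hid'
    rw [Complex.norm_exp, norm_mul, norm_mul, norm_mul, norm_pow] at hn
    have hU : (∑' p : Nat.Primes, (uu g k p : ℂ) * (p : ℂ) ^ (-(x : ℂ))).re
        = ∑' p : Nat.Primes, uu g k p * (p : ℝ) ^ (-x) := by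
      have : ∀ p : Nat.Primes, (uu g k p : ℂ) * (p : ℂ) ^ (-(x : ℂ))
          = ((uu g k p * (p : ℝ) ^ (-x) : ℝ) : ℂ) := by
        intro p
        rw [Complex.ofReal_mul, Complex.ofReal_cpow (Nat.cast_nonneg _)]
        push_cast
        rfl
      simp_rw [this]
      rw [← Complex.ofReal_tsum, Complex.ofReal_re]
    have hV : ‖VV g k (x : ℂ)‖ = Real.exp (∑' p : Nat.Primes, (vv g k p (x : ℂ)).re) := by
      unfold VV
      rw [Complex.norm_exp, Complex.re_tsum hvs]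
    rw [hU, hV] at hn
    have hE : Real.exp (∑' p : Nat.Primes, (uu g k p * (p : ℝ) ^ (-x) - (vv g k p (x : ℂ)).re))
        = ‖ZZ x‖ ^ (2 * k) * (‖G x‖ * ‖Gc x‖) := by
      rw [hus.tsum_sub hvr, Real.exp_sub, hn]
      field_simp
    -- lower bound for the exponential
    have hpz' := hpz (1 + 2 * η) (by linarith) (by linarith)
    have hps : Summable fun p : Nat.Primes => (p : ℝ) ^ (-(1 + 2 * η)) :=
      summable_prime_rpow _ (by linarith)
    have hsum : (k * (k + 1) : ℝ) * ∑' p : Nat.Primes, (p : ℝ) ^ (-(1 + 2 * η)) - K1 ≤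
        ∑' p : Nat.Primes, (uu g k p * (p : ℝ) ^ (-x) - (vv g k p (x : ℂ)).re) := by
      rw [hK1, ← tsum_mul_left, ← (hps.mul_left _).tsum_sub hK1s]
      refine Summable.tsum_le_tsum (fun p => ?_) ((hps.mul_left _).sub hK1s) (hus.sub hvr)
      have := d_lower h p p.2 η hη (by linarith)
      rw [← hx] at this
      linarith
    have hEl : Real.exp (-K1) * (c / (2 * η)) ^ (2 * m) ≤ ‖ZZ x‖ ^ (2 * k) * (‖G x‖ * ‖Gc x‖) := by
      rw [← hE]
      refine le_trans ?_ (Real.exp_le_exp.mpr hsum)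
      rw [hmk, show (2 * (m : ℝ)) * ∑' p : Nat.Primes, (p : ℝ) ^ (-(1 + 2 * η)) - K1
        = -K1 + ((2 * m : ℕ) : ℝ) * ∑' p : Nat.Primes, (p : ℝ) ^ (-(1 + 2 * η)) by push_cast; ring,
        Real.exp_add, Real.exp_nat_mul]
      have h1 : c / (2 * η) ≤ Real.exp (∑' p : Nat.Primes, (p : ℝ) ^ (-(1 + 2 * η))) := by
        have : 1 + 2 * η - 1 = 2 * η := by ring
        rwa [this] at hpz'
      gcongr
    have hZx : ‖ZZ x‖ ≤ K := hK x (by
      rw [mem_closedBall_zero_iff, Complex.norm_real, Real.norm_eq_abs, abs_le]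
      constructor <;> (rw [hx]; linarith))
    have hxabs : (1 / 4 : ℝ) ≤ ‖(x : ℂ)‖ := by
      rw [Complex.norm_real, Real.norm_eq_abs, abs_of_nonpos (by rw [hx]; linarith), hx]
      linarith
    rw [hG2, hGc2, norm_mul, norm_mul, norm_pow]
    calc (1 / 4 : ℝ) ^ (2 * (k - 1)) * (Real.exp (-K1) * (c / (2 * η)) ^ (2 * m))
        ≤ ‖(x : ℂ)‖ ^ (2 * (k - 1)) * (‖ZZ x‖ ^ (2 * k) * (‖G x‖ * ‖Gc x‖)) := by
          gcongr
      _ ≤ ‖(x : ℂ)‖ ^ (2 * (k - 1)) * ((K + 1) ^ (2 * k) * (‖G x‖ * ‖Gc x‖)) := by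
          gcongr
          linarith
      _ = (K + 1) ^ (2 * k) * (‖(x : ℂ)‖ ^ (k - 1) * ‖G x‖ * (‖(x : ℂ)‖ ^ (k - 1) * ‖Gc x‖)) := by
          rw [two_mul, pow_add]
          ring
  -- constants
  set c3 : ℝ := (1 / 4 : ℝ) ^ (2 * (k - 1)) * (Real.exp (-K1) * (c / 2) ^ (2 * m)) / (K + 1) ^ (2 * k)
    with hc3
  have hc3p : 0 < c3 := by positivity
  set c4 : ℝ := Real.sqrt c3 with hc4
  have hc4p : 0 < c4 := Real.sqrt_pos.mpr hc3p
  have hc4s : c4 ^ 2 = c3 := Real.sq_sqrt hc3p.le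
  set A : ℝ := max A₁ A₂ with hA
  have hAp : 0 < A := lt_max_of_lt_left hA₁
  set ε : ℝ := c4 / (4 * A) with hε
  have hεp : 0 < ε := by positivity
  obtain ⟨B₁, hB₁, hb₁⟩ := hup₁ ε hεp
  obtain ⟨B₂, hB₂, hb₂⟩ := hup₂ ε hεp
  set B : ℝ := max B₁ B₂ with hB
  have hB0 : 0 ≤ B := hB₁.trans (le_max_left _ _)
  set η : ℝ := min (min (δ / 4) (1 / 4)) (c4 / (4 * (B + 1))) with hη
  have hη0 : 0 < η := by
    rw [hη]
    refine lt_min (lt_min (by positivity) (by norm_num)) (by positivity)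
  have hη1 : η ≤ δ / 4 := (min_le_left _ _).trans (min_le_left _ _)
  have hη2 : η ≤ 1 / 4 := (min_le_left _ _).trans (min_le_right _ _)
  have hη3 : η ≤ c4 / (4 * (B + 1)) := min_le_right _ _
  have h5 := hlow η hη0 hη2 (by linarith)
  have u1 := hb₁ η hη0 (by linarith)
  have u2 := hb₂ η hη0 (by linarith)
  rw [Nat.sub_add_cancel hm1] at u1 u2
  set D : ℝ := B + ε * A / η ^ m with hD
  have hDp : 0 ≤ D := by positivity
  have u1' : ‖Phi (fun n => g n) ((η - 1 / 2 : ℝ) : ℂ)‖ ≤ D := by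
    refine u1.trans ?_
    rw [hD]
    gcongr
    · exact le_max_left _ _
    · exact le_max_left _ _
  have u2' : ‖Phi (fun n => cj g n) ((η - 1 / 2 : ℝ) : ℂ)‖ ≤ D := by
    refine u2.trans ?_
    rw [hD]
    gcongr
    · exact le_max_right _ _
    · exact le_max_right _ _
  have h6 : c3 * (η ^ m)⁻¹ ^ 2 ≤ D ^ 2 := by
    have h7 : (1 / 4 : ℝ) ^ (2 * (k - 1)) * (Real.exp (-K1) * (c / (2 * η)) ^ (2 * m))
        ≤ (K + 1) ^ (2 * k) * (D * D) := h5.trans (by gcongr)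
    have h8 : (1 / 4 : ℝ) ^ (2 * (k - 1)) * (Real.exp (-K1) * (c / (2 * η)) ^ (2 * m))
        = (K + 1) ^ (2 * k) * (c3 * (η ^ m)⁻¹ ^ 2) := by
      have e5 : (c / (2 * η)) ^ (2 * m) = (c / 2) ^ (2 * m) * (η ^ m)⁻¹ ^ 2 := by
        rw [← div_div, div_pow, div_eq_mul_inv, pow_mul' η 2 m, inv_pow]
      rw [e5, hc3]
      field_simp
    rw [h8] at h7
    have h9 : 0 < (K + 1) ^ (2 * k) := by positivity
    have := le_of_mul_le_mul_left h7 h9
    rw [sq D]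
    exact this
  have h10 : c3 ≤ (D * η ^ m) ^ 2 := by
    have h11 : 0 < η ^ m := by positivity
    calc c3 = c3 * (η ^ m)⁻¹ ^ 2 * (η ^ m) ^ 2 := by field_simp
      _ ≤ D ^ 2 * (η ^ m) ^ 2 := by gcongr
      _ = _ := by ring
  have h12 : D * η ^ m ≤ c4 / 2 := by
    have h11 : 0 < η ^ m := by positivity
    have e7 : D * η ^ m = B * η ^ m + ε * A := by
      rw [hD]; field_simp
    have e8 : ε * A = c4 / 4 := by rw [hε]; field_simp
    have e9 : B * η ^ m ≤ c4 / 4 := by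
      have e10 : η ^ m ≤ η := by
        calc η ^ m ≤ η ^ 1 := pow_le_pow_of_le_one hη0.le (by linarith) hm1
          _ = η := pow_one η
      calc B * η ^ m ≤ B * η := by gcongr
        _ ≤ (B + 1) * (c4 / (4 * (B + 1))) := by gcongr; linarith
        _ = c4 / 4 := by field_simp
    rw [e7, e8]
    linarith
  have h13 : 0 ≤ D * η ^ m := by positivity
  have h14 : (D * η ^ m) ^ 2 ≤ (c4 / 2) ^ 2 := by gcongr
  rw [← hc4s] at h10
  nlinarith

end Pool.Agent.T6.H78.CK
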