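import Mathlib
import Pool.Agent.T6.H78.CK.E7

set_option autoImplicit false

open ArithmeticFunction Finset Filter Topology MeasureTheory
open scoped ComplexOrder ComplexConjugate

namespace Pool.Agent.T6.H78.CK

open Pool.H232R3

/-- extension of a sequence by 0 at 0 -/
noncomputable def ext (f : ℕ → ℂ) : ArithmeticFunction ℂ := ⟨fun n => if n = 0 then 0 else f n, by simp⟩

lemma ext_apply (f : ℕ → ℂ) (n : ℕ) (hn : n ≠ 0) : ext f n = f n := if_neg hn

lemma ext_mul (f : ℕ → ℂ) (hf : ∀ m n : ℕ, 0 < m → 0 < n → f (m * n) = f m * f n) (m n : ℕ) :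
    ext f (m * n) = ext f m * ext f n := by
  rcases Nat.eq_zero_or_pos m with h0 | hm
  · rw [h0, zero_mul]; simp
  rcases Nat.eq_zero_or_pos n with h0 | hn
  · rw [h0, mul_zero]; simp
  rw [ext_apply f _ (Nat.mul_pos hm hn).ne', ext_apply f _ hm.ne', ext_apply f _ hn.ne',
    hf m n hm hn]

lemma ext_SS (f : ℕ → ℂ) (N : ℕ) : SS (fun n => ext f n) N = ∑ n ∈ Finset.Icc 1 N, f n := by
  unfold SS
  refine Finset.sum_congr rfl fun n hn => ?_
  rw [Finset.mem_Icc] at hn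
  exact ext_apply f n (by omega)

variable (f : ℕ → ℂ) (f1 : f 1 = 1)
  (hmul : ∀ m n : ℕ, 0 < m → 0 < n → f (m * n) = f m * f n)
  (k : ℕ) (hk : 1 ≤ k)
  (h0 : ∀ j : ℕ, j < k → Tendsto (fun N : ℕ => ∑ n ∈ Finset.Icc 1 N,
    f n * ((Real.log n : ℝ) : ℂ) ^ j) atTop (𝓝 0))
  (C : ℝ) (hC : ∀ p : ℕ, p.Prime → ‖f p‖ ≤ C / p)

include f1 hmul hk h0 hC in
lemma mk_cls (θ : ℝ) (hθ0 : 0 < θ) (hθ1 : θ ≤ 1 / 2) (hd : Dec (fun n => ext f n) θ)
    (hs : Summable fun p : Nat.Primes => Real.sqrt p * max (-((k : ℝ) / p) - (f p).re) 0) :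
    Cls (ext f) k C θ where
  one := by rw [ext_apply f 1 one_ne_zero]; exact f1
  mul := ext_mul f hmul
  k1 := hk
  th0 := hθ0
  th1 := hθ1
  dec := hd
  ub := fun p hp => by rw [ext_apply f p hp.ne_zero]; exact hC p hp
  zero := fun j hj => by
    refine (h0 (j + 1) (by omega)).congr fun N => ?_
    refine Finset.sum_congr rfl fun n hn => ?_
    rw [Finset.mem_Icc] at hn
    rw [ext_apply f n (by omega)]
  one_sided := hs.congr fun p => by rw [ext_apply f p p.2.ne_zero]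

include f1 hmul hk h0 hC in
theorem part_A
    (hs : Summable fun p : Nat.Primes => Real.sqrt p * max (-((k : ℝ) / p) - (f p).re) 0)
    (θ : ℝ) (hθ0 : 0 < θ) (hθ1 : θ ≤ 1 / 2)
    (hB : ∃ B : ℝ, ∀ N : ℕ, 1 ≤ N → ‖∑ n ∈ Finset.Icc 1 N, f n‖ ≤ B * (N : ℝ) ^ (-θ))
    (s : ℂ) (hs1 : s ≠ 1) (hsθ : 1 - θ < s.re) : riemannZeta s ≠ 0 := by
  obtain ⟨B, hB⟩ := hB
  refine zeta_free (mk_cls f f1 hmul k hk h0 C hC θ hθ0 hθ1 ?_ hs) s hs1 hsθ
  intro θ' h1 h2
  refine ⟨|B| + 1, by positivity, fun N hN => ?_⟩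
  have hN1 : (1 : ℝ) ≤ N := by exact_mod_cast hN
  rw [ext_SS]
  refine (hB N hN).trans ?_
  have h3 : (N : ℝ) ^ (-θ) ≤ (N : ℝ) ^ (-θ') :=
    Real.rpow_le_rpow_of_exponent_le hN1 (by linarith)
  calc B * (N : ℝ) ^ (-θ) ≤ (|B| + 1) * (N : ℝ) ^ (-θ) := by
        gcongr
        linarith [le_abs_self B]
    _ ≤ _ := by gcongr

open Classical in
include f1 hmul hk h0 hC in
theorem part_B
    (hs : Summable fun p : Nat.Primes => if (f p).im = 0 ∧ 0 ≤ (f p).re then 0 else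
      Real.sqrt p * max (‖f p‖ - (k : ℝ) / p) 0) :
    ∃ c : ℝ, 0 < c ∧ ∀ M : ℕ, ∃ N : ℕ, M ≤ N ∧ 1 < N ∧
      c * ((N : ℝ) ^ (-(1 / 2) : ℝ) * (Real.log N) ^ (k * (k + 1) / 2 - 1)) ≤
        ‖∑ n ∈ Finset.Icc 1 N, f n‖ := by
  by_contra hcon
  push Not at hcon
  set m : ℕ := k * (k + 1) / 2 with hm
  have h2m : 2 * m = k * (k + 1) := by
    rw [hm]
    exact Nat.mul_div_cancel' (Nat.even_mul_succ_self k).two_dvd
  have hLO : LO (fun n => ext f n) (m - 1) := by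
    intro ε hε
    obtain ⟨M, hM⟩ := hcon ε hε
    refine ⟨max M 2, fun N hN => ?_⟩
    rw [ext_SS]
    exact (hM N ((le_max_left _ _).trans hN)
      (lt_of_lt_of_le one_lt_two ((le_max_right _ _).trans hN))).le
  have hone : Summable fun p : Nat.Primes => Real.sqrt p * max (-((k : ℝ) / p) - (f p).re) 0 := by
    refine Summable.of_nonneg_of_le (fun p => by positivity) (fun p => ?_) hs
    split_ifs with h
    · have h3 : max (-((k : ℝ) / p) - (f p).re) 0 = 0 := by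
        rw [max_eq_right]
        have : (0 : ℝ) ≤ (k : ℝ) / p := by positivity
        linarith [h.2]
      rw [h3, mul_zero]
    · have h3 : -((k : ℝ) / p) - (f p).re ≤ ‖f p‖ - (k : ℝ) / p := by
        have h4 := Complex.abs_re_le_norm (f p)
        have h5 := neg_abs_le (f p).re
        linarith
      gcongr
  refine omega_core (mk_cls f f1 hmul k hk h0 C hC (1 / 2) (by norm_num) le_rfl
    (LO_dec _ _ hLO) hone) ?_ m h2m hLO
  refine hs.congr fun p => ?_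
  unfold e2
  rw [ext_apply f p p.2.ne_zero]
  split_ifs
  · rw [mul_zero]
  · rfl

end Pool.Agent.T6.H78.CK
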